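import Mathlib

set_option autoImplicit false

/-! Torsion elements of free products. -/

namespace Pool.Agent.H476R3.Iso.Tor

open Monoid CoprodI

section General

variable {Y : Type} {M : Y → Type} [∀ y, Group (M y)]

/-- The product of a list of syllables. -/
def lp (l : List (Σ y, M y)) : CoprodI M := (l.map fun s => of s.2).prod

theorem lp_append (l l' : List (Σ y, M y)) : lp (l ++ l') = lp l * lp l' := by simp [lp]

theorem lp_cons (s : Σ y, M y) (l : List (Σ y, M y)) : lp (s :: l) = of s.2 * lp l := by simp [lp]

/-- Reducedness. -/
def Red (l : List (Σ y, M y)) : Prop :=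
  (∀ s ∈ l, s.2 ≠ 1) ∧ l.IsChain fun s s' => s.1 ≠ s'.1

theorem lp_ne_one {l : List (Σ y, M y)} (h : Red l) (hl : l ≠ []) : lp l ≠ 1 := by
  classical
  intro h1
  let w : Word M := ⟨l, h.1, h.2⟩
  have hw : w.prod = (Word.empty : Word M).prod := h1
  have h2 : w = (Word.empty : Word M) := (Word.equiv (M := M)).symm.injective hw
  exact hl (congrArg Word.toList h2)

theorem exists_red (x : CoprodI M) : ∃ l, Red l ∧ lp l = x := by
  classical
  refine ⟨(Word.equiv x).toList, ⟨(Word.equiv x).ne_one, (Word.equiv x).chain_ne⟩, ?_⟩
  exact (Word.equiv (M := M)).symm_apply_apply x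

theorem pow_red {l : List (Σ y, M y)} (h : Red l) (hl : l ≠ [])
    (hc : ∀ s ∈ l.getLast?, ∀ s' ∈ l.head?, s.1 ≠ s'.1) (n : ℕ) :
    ∃ l', Red l' ∧ lp l' = lp l ^ (n + 1) ∧ l' ≠ [] ∧ l'.head? = l.head? := by
  induction n with
  | zero => exact ⟨l, h, by simp, hl, rfl⟩
  | succ n ih =>
    obtain ⟨l', h1, h2, h3, h4⟩ := ih
    refine ⟨l ++ l', ⟨?_, ?_⟩, ?_, ?_, ?_⟩
    · intro s hs
      rcases List.mem_append.mp hs with hs | hs
      · exact h.1 s hs
      · exact h1.1 s hs
    · rw [List.isChain_append]
      refine ⟨h.2, h1.2, ?_⟩
      intro s hs s' hs'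
      rw [h4] at hs'
      exact hc s hs s' hs'
    · rw [lp_append, h2, pow_succ' _ (n + 1)]
    · simp [hl]
    · cases l with
      | nil => exact absurd rfl hl
      | cons a l => simp

/-- A torsion element of a free product is conjugate into a factor. -/
theorem torsion (x : CoprodI M) (n : ℕ) (hn : 0 < n) (hx : x ^ n = 1) :
    x = 1 ∨ ∃ (y : Y) (k : M y) (v : CoprodI M), k ≠ 1 ∧ x = v * of k * v⁻¹ := by
  obtain ⟨l, hl, rfl⟩ := exists_red x
  induction hs : l.length using Nat.strong_induction_on generalizing l with
  | _ s ih =>
    rcases l with _ | ⟨a, l⟩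
    · left; rfl
    right
    rcases List.eq_nil_or_concat l with rfl | ⟨l, b, rfl⟩
    · refine ⟨a.1, a.2, 1, hl.1 a (by simp), ?_⟩
      simp [lp]
    · by_cases hab : a.1 = b.1
      · obtain ⟨y, ka⟩ := a
        obtain ⟨y', kb⟩ := b
        obtain rfl : y = y' := hab
        have hch := hl.2
        rw [List.concat_eq_append] at hch
        have e1 : lp (⟨y, ka⟩ :: l.concat ⟨y, kb⟩) = of ka * (lp l * of kb) := by
          rw [lp_cons, List.concat_eq_append, lp_append]
          simp [lp]
        have hcl : l.IsChain fun s s' : (Σ y, M y) => s.1 ≠ s'.1 := by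
          have := (List.isChain_cons.mp hch).2
          exact (List.isChain_append.mp this).1
        by_cases hk : kb * ka = 1
        · have e2 : lp l = (of ka)⁻¹ * lp (⟨y, ka⟩ :: l.concat ⟨y, kb⟩) * of ka := by
            rw [e1]
            have : (of kb : CoprodI M) * of ka = 1 := by rw [← map_mul, hk, map_one]
            calc lp l = lp l * (of kb * of ka) := by rw [this, mul_one]
              _ = _ := by group
          have hl' : Red l := ⟨fun s hs' => hl.1 s (by simp [hs']), hcl⟩
          have h3 := ih l.length (by simp at hs; omega) l hl' (by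
            rw [e2]
            have : ∀ z c : CoprodI M, (c⁻¹ * z * c) ^ n = c⁻¹ * z ^ n * c := by
              intro z c
              have := conj_pow (i := n) (a := c⁻¹) (b := z)
              simpa using this
            rw [this, hx]; group) rfl
          rcases h3 with h3 | ⟨y', k, v, hk1, h3⟩
          · exfalso
            have : lp (⟨y, ka⟩ :: l.concat ⟨y, kb⟩) = 1 := by
              have := e2.symm
              rw [h3] at this
              have h4 : lp (⟨y, ka⟩ :: l.concat ⟨y, kb⟩) = of ka * 1 * (of ka)⁻¹ := by
                rw [← this]; group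
              simpa using h4
            exact lp_ne_one hl (by simp) this
          · refine ⟨y', k, of ka * v, hk1, ?_⟩
            have : lp (⟨y, ka⟩ :: l.concat ⟨y, kb⟩) = of ka * lp l * (of ka)⁻¹ := by
              rw [e2]; group
            rw [this, h3]; group
        · have hl' : Red (l ++ [(⟨y, kb * ka⟩ : Σ y, M y)]) := by
            constructor
            · intro s hs'
              rcases List.mem_append.mp hs' with hs' | hs'
              · exact hl.1 s (by simp [hs'])
              · rw [List.mem_singleton.mp hs']; exact hk
            · have h1 := (List.isChain_cons.mp hch).2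
              rw [List.isChain_append] at h1 ⊢
              refine ⟨h1.1, by simp, ?_⟩
              intro s hs' s' hs''
              have := h1.2.2 s hs' ⟨y, kb⟩ (by simp)
              simp at hs''
              rw [← hs'']
              exact this
          have e2 : lp (l ++ [(⟨y, kb * ka⟩ : Σ y, M y)]) =
              (of ka)⁻¹ * lp (⟨y, ka⟩ :: l.concat ⟨y, kb⟩) * of ka := by
            rw [e1, lp_append]
            simp only [lp, List.map_cons, List.map_nil, List.prod_cons, List.prod_nil, mul_one,
              map_mul]
            group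
          have h3 := ih (l ++ [(⟨y, kb * ka⟩ : Σ y, M y)]).length
            (by simp at hs ⊢; omega) _ hl' (by
            rw [e2]
            have : ∀ z c : CoprodI M, (c⁻¹ * z * c) ^ n = c⁻¹ * z ^ n * c := by
              intro z c
              have := conj_pow (i := n) (a := c⁻¹) (b := z)
              simpa using this
            rw [this, hx]; group) rfl
          rcases h3 with h3 | ⟨y', k, v, hk1, h3⟩
          · exact absurd h3 (lp_ne_one hl' (by simp))
          · refine ⟨y', k, of ka * v, hk1, ?_⟩
            have : lp (⟨y, ka⟩ :: l.concat ⟨y, kb⟩) =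
                of ka * lp (l ++ [(⟨y, kb * ka⟩ : Σ y, M y)]) * (of ka)⁻¹ := by
              rw [e2]; group
            rw [this, h3]; group
      · exfalso
        obtain ⟨m, rfl⟩ : ∃ m, n = m + 1 := ⟨n - 1, by omega⟩
        obtain ⟨l', h1, h2, h3, h4⟩ := pow_red hl (by simp) (by
          intro s hs' s' hs''
          rw [List.concat_eq_append, ← List.cons_append, List.getLast?_append] at hs'
          simp at hs' hs''
          rw [← hs', ← hs'']
          exact fun h => hab h.symm) m
        rw [hx] at h2
        exact lp_ne_one h1 h3 h2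

end General

end Pool.Agent.H476R3.Iso.Tor
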