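import Mathlib
import Pool.Agent.H476R3.Iso.Tor

set_option autoImplicit false

/-! Rigidity of torsion markers. -/

namespace Pool.Agent.H476R3.Iso.Rig

open Monoid CoprodI Pool.Agent.H476R3.Iso.Tor

/-- The free product of copies of a group. -/
abbrev W (Y K : Type) [Group K] : Type := CoprodI (fun _ : Y => K)

section Maps

variable {Y Y' Y'' K K' K'' : Type} [Group K] [Group K'] [Group K'']

/-- Functoriality. -/
def wmap (f : Y → Y') (g : K →* K') : W Y K →* W Y' K' :=
  CoprodI.lift (fun y => (of (M := fun _ : Y' => K') (i := f y)).comp g)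

theorem wmap_of (f : Y → Y') (g : K →* K') (y : Y) (k : K) :
    wmap f g (of (M := fun _ : Y => K) (i := y) k) = of (M := fun _ : Y' => K') (i := f y) (g k) := by
  simp [wmap]

theorem wmap_wmap (f : Y → Y') (g : K →* K') (f' : Y' → Y'') (g' : K' →* K'') (w : W Y K) :
    wmap f' g' (wmap f g w) = wmap (f' ∘ f) (g'.comp g) w := by
  suffices h : (wmap f' g').comp (wmap f g) = wmap (f' ∘ f) (g'.comp g) from
    DFunLike.congr_fun h w
  apply CoprodI.ext_hom
  intro y
  ext k
  simp [wmap_of]

theorem wmap_id (w : W Y K) : wmap (fun y => y) (MonoidHom.id K) w = w := by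
  suffices h : wmap (fun y : Y => y) (MonoidHom.id K) = MonoidHom.id _ from DFunLike.congr_fun h w
  apply CoprodI.ext_hom
  intro y
  ext k
  simp [wmap_of]

end Maps

section Act

variable (H Y K : Type) [Group H] [MulAction H Y] [Group K]

/-- The permutation action. -/
def act : H →* MulAut (W Y K) where
  toFun h :=
    { toFun := wmap (fun y => h • y) (MonoidHom.id K)
      invFun := wmap (fun y => h⁻¹ • y) (MonoidHom.id K)
      left_inv := by
        intro w
        rw [wmap_wmap]
        have : ((fun y : Y => h⁻¹ • y) ∘ fun y => h • y) = fun y => y := by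
          funext y; simp
        rw [this]; exact wmap_id w
      right_inv := by
        intro w
        rw [wmap_wmap]
        have : ((fun y : Y => h • y) ∘ fun y => h⁻¹ • y) = fun y => y := by
          funext y; simp
        rw [this]; exact wmap_id w
      map_mul' := fun a b => map_mul _ a b }
  map_one' := by
    apply MulEquiv.ext
    intro w
    change wmap (fun y => (1 : H) • y) (MonoidHom.id K) w = w
    have : (fun y : Y => (1 : H) • y) = fun y => y := by funext y; simp
    rw [this]; exact wmap_id w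
  map_mul' a b := by
    apply MulEquiv.ext
    intro w
    change wmap (fun y => (a * b) • y) (MonoidHom.id K) w =
      wmap (fun y => a • y) (MonoidHom.id K) (wmap (fun y => b • y) (MonoidHom.id K) w)
    rw [wmap_wmap]
    congr 2
    funext y
    simp [mul_smul]

variable {H Y K}

theorem act_apply (h : H) (w : W Y K) : act H Y K h w = wmap (fun y => h • y) (MonoidHom.id K) w :=
  rfl

theorem act_of (h : H) (y : Y) (k : K) : act H Y K h (of (M := fun _ : Y => K) (i := y) k) =
    of (M := fun _ : Y => K) (i := h • y) k := by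
  rw [act_apply, wmap_of]; rfl

variable (H Y K)

/-- The semidirect product. -/
abbrev Ex : Type := W Y K ⋊[act H Y K] H

variable {H Y K}
variable {Y' K' : Type} [MulAction H Y'] [Group K']

/-- Functoriality. -/
def emap (f : Y → Y') (hf : ∀ (h : H) y, f (h • y) = h • f y) (g : K →* K') :
    Ex H Y K →* Ex H Y' K' :=
  SemidirectProduct.map (wmap f g) (MonoidHom.id H) (by
    intro h
    apply CoprodI.ext_hom
    intro y
    ext k
    simp only [MonoidHom.comp_apply, MulEquiv.coe_toMonoidHom, act_of, wmap_of,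
      MonoidHom.id_apply]
    rw [hf])

theorem emap_left (f : Y → Y') (hf : ∀ (h : H) y, f (h • y) = h • f y) (g : K →* K')
    (x : Ex H Y K) : (emap f hf g x).left = wmap f g x.left := rfl

theorem emap_right (f : Y → Y') (hf : ∀ (h : H) y, f (h • y) = h • f y) (g : K →* K')
    (x : Ex H Y K) : (emap f hf g x).right = x.right := rfl

end Act

section Mu

variable {Y K : Type} [CommGroup K]

open Classical in
/-- The abelian invariant. -/
noncomputable def mu : W Y K →* (Y → K) :=
  CoprodI.lift (fun y => MonoidHom.mulSingle (fun _ : Y => K) y)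

open Classical in
theorem mu_of (y : Y) (k : K) : mu (of (M := fun _ : Y => K) (i := y) k) = Pi.mulSingle y k := by
  simp [mu]

open Classical in
theorem mu_conj (v : W Y K) (y : Y) (k : K) :
    mu (v * of (M := fun _ : Y => K) (i := y) k * v⁻¹) = Pi.mulSingle y k := by
  rw [map_mul, map_mul, map_inv, mul_comm (mu v), mul_inv_cancel_right, mu_of]

theorem mu_wmap {K' : Type} [CommGroup K'] (g : K →* K') (w : W Y K) (y : Y) :
    mu (wmap (fun y => y) g w) y = g (mu w y) := by
  classical
  suffices h : (Pi.evalMonoidHom (fun _ : Y => K') y).comp (mu.comp (wmap (fun y => y) g)) =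
      g.comp ((Pi.evalMonoidHom (fun _ : Y => K) y).comp mu) from DFunLike.congr_fun h w
  apply CoprodI.ext_hom
  intro y'
  ext k
  simp only [MonoidHom.comp_apply, wmap_of, mu_of, Pi.evalMonoidHom_apply]
  by_cases hy : y = y'
  · subst hy; simp
  · rw [Pi.mulSingle_eq_of_ne hy, Pi.mulSingle_eq_of_ne hy, map_one]

theorem mu_act {H : Type} [Group H] [MulAction H Y] (h : H) (w : W Y K) (y : Y) :
    mu (act H Y K h w) (h • y) = mu w y := by
  classical
  suffices h' : (Pi.evalMonoidHom (fun _ : Y => K) (h • y)).comp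
      (mu.comp (act H Y K h).toMonoidHom) =
      (Pi.evalMonoidHom (fun _ : Y => K) y).comp mu from DFunLike.congr_fun h' w
  apply CoprodI.ext_hom
  intro y'
  ext k
  simp only [MonoidHom.comp_apply, MulEquiv.coe_toMonoidHom, act_of, mu_of,
    Pi.evalMonoidHom_apply]
  by_cases hy : y = y'
  · subst hy; simp
  · have : h • y ≠ h • y' := fun e => hy (MulAction.injective h e)
    rw [Pi.mulSingle_eq_of_ne hy, Pi.mulSingle_eq_of_ne this]

end Mu

section Torsion

variable {H : Type} [Group H] (htf : ∀ (h : H) (n : ℕ), 0 < n → h ^ n = 1 → h = 1)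
variable {Y K : Type} [MulAction H Y] [CommGroup K]

include htf in
/-- Torsion elements of the extension. -/
theorem ex_torsion (x : Ex H Y K) (n : ℕ) (hn : 0 < n) (hx : x ^ n = 1) :
    x.right = 1 ∧ x.left ^ n = 1 ∧ (x = 1 ∨ ∃ (y : Y) (k : K) (v : W Y K), k ≠ 1 ∧ k ^ n = 1 ∧
      x.left = v * of (M := fun _ : Y => K) (i := y) k * v⁻¹) := by
  have h1 : x.right = 1 := by
    apply htf _ n hn
    have := congrArg (SemidirectProduct.rightHom) hx
    rw [map_pow, map_one] at this
    exact this
  have h0 : x = SemidirectProduct.inl x.left := by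
    ext
    · rfl
    · rw [h1]; rfl
  have h2 : x.left ^ n = 1 := by
    rw [h0, ← map_pow] at hx
    exact SemidirectProduct.inl_injective (by rw [hx, map_one])
  refine ⟨h1, h2, ?_⟩
  rcases torsion x.left n hn h2 with h3 | ⟨y, k, v, h3, h4⟩
  · left; rw [h0, h3, map_one]
  · right
    refine ⟨y, k, v, h3, ?_, h4⟩
    rw [h4] at h2
    have h5 : v * (of (M := fun _ : Y => K) (i := y) k) ^ n * v⁻¹ = 1 := by
      rw [← h2]
      exact (conj_pow).symm
    have h6 : (of (M := fun _ : Y => K) (i := y) k) ^ n = 1 := by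
      have := mul_inv_eq_one.mp h5
      simpa using this
    rw [← map_pow] at h6
    exact of_injective (M := fun _ : Y => K) y (by rw [h6, map_one])

end Torsion

section Main

variable {H : Type} [Group H] (htf : ∀ (h : H) (n : ℕ), 0 < n → h ^ n = 1 → h = 1)
variable {ι : Type} (p : ι → ℕ) (hp : ∀ i, (p i).Prime) (hpi : Function.Injective p)
variable {G G' : Type} [Group G] [Group G'] (φ : G ≃* G')
variable (c : ι → G) (π : G →* H) (hc : ∀ i, c i ^ p i = 1)
  (hker : ∀ g, π g = 1 → g ∈ Subgroup.normalClosure (Set.range c))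
variable (c' : ι → G') (hc' : ∀ i, c' i ^ p i = 1)

include htf hp hpi hc hker hc' in
/-- A marker is not lost in a quotient where its counterpart survives. -/
theorem marker_survives {Y K : Type} [MulAction H Y] [CommGroup K] (i : ι)
    (hK : ∀ k : K, k ^ p i = 1) (θ : G' →* Ex H Y K) (hθ : θ (c' i) ≠ 1) : θ (φ (c i)) ≠ 1 := by
  intro h0
  have h1 : ∀ j, θ (φ (c j)) = 1 := by
    intro j
    by_cases hij : j = i
    · rw [hij]; exact h0
    · have hpow : θ (φ (c j)) ^ p j = 1 := by rw [← map_pow, ← map_pow, hc, map_one, map_one]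
      obtain ⟨-, -, h | ⟨y, k, v, hk, hk2, -⟩⟩ := ex_torsion htf _ _ (hp j).pos hpow
      · exact h
      · exfalso
        apply hk
        have hcop : Nat.Coprime (p j) (p i) :=
          (Nat.coprime_primes (hp j) (hp i)).2 (fun h => hij (hpi h))
        have := orderOf_dvd_of_pow_eq_one hk2
        have h3 := orderOf_dvd_of_pow_eq_one (hK k)
        have h4 := Nat.dvd_gcd this h3
        rw [hcop] at h4
        exact orderOf_eq_one_iff.mp (Nat.dvd_one.mp h4)
  have h2 : Subgroup.normalClosure (Set.range c) ≤ (θ.comp φ.toMonoidHom).ker := by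
    apply Subgroup.normalClosure_le_normal
    rintro _ ⟨j, rfl⟩
    exact h1 j
  have h3 : π (φ.symm (c' i)) = 1 := by
    apply htf _ _ (hp i).pos
    rw [← map_pow, ← map_pow, hc', map_one, map_one]
  have h4 := h2 (hker _ h3)
  rw [MonoidHom.mem_ker] at h4
  apply hθ
  simpa using h4

variable (i0 : ι) (hcomm : ∀ i, Commute (c i) (c i0))
variable (π' : G' →* H)
variable {Y : ι → Type} [∀ i, MulAction H (Y i)] (y : ∀ i, Y i)
variable {K0 : Type} [CommGroup K0] (hK0 : ∀ k : K0, k ^ p i0 = 1)
variable {K : ι → Type} [∀ i, CommGroup (K i)] (hK : ∀ i, ∀ k : K i, k ^ p i = 1)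
variable (R0 : G' →* Ex H H K0) (hR0 : ∀ g, (R0 g).right = π' g) (hR0c : R0 (c' i0) ≠ 1)
variable (ρ : ∀ i, G' →* Ex H (Y i) (K0 × K i)) (hρ : ∀ i, i ≠ i0 → ∀ g, (ρ i g).right = π' g)
variable (hρc : ∀ i, i ≠ i0 → emap (fun y : Y i => y) (fun _ _ => rfl) (MonoidHom.snd K0 (K i))
  (ρ i (c' i)) ≠ 1)
variable (hρR : ∀ i, i ≠ i0 → ∀ g, emap (fun y : Y i => y) (fun _ _ => rfl)
  (MonoidHom.fst K0 (K i)) (ρ i g) = emap (fun h : H => h • y i) (fun h h' => by
    simp [mul_smul]) (MonoidHom.id K0) (R0 g))

include htf hp hpi hc hker hc' hcomm hK0 hK hR0c hρ hρc hρR in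
/-- The rigidity theorem. -/
theorem rigid : ∃ h0 : H, ∀ i, i ≠ i0 → ∀ g : G, Commute g (c i) →
    π' (φ g) • (h0 • y i) = h0 • y i := by
  classical
  -- the image of the tie
  have hα : (φ (c i0)) ^ p i0 = 1 := by rw [← map_pow, hc, map_one]
  have hα1 := marker_survives htf p hp hpi φ c π hc hker c' hc' i0 hK0 R0 hR0c
  obtain ⟨a1, a2, a3 | ⟨h0, σ, v, hσ, hσ2, a3⟩⟩ := ex_torsion htf (R0 (φ (c i0))) (p i0)
    (hp i0).pos (by rw [← map_pow, hα, map_one])
  · exact absurd a3 hα1
  refine ⟨h0, fun i hi g hg => ?_⟩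
  have hcop : Nat.Coprime (p i0) (p i) :=
    (Nat.coprime_primes (hp i0) (hp i)).2 (fun h => hi (hpi h).symm)
  -- the two commuting torsion elements
  have hγ : (φ (c i)) ^ p i = 1 := by rw [← map_pow, hc, map_one]
  obtain ⟨b1, b2, -⟩ := ex_torsion htf (ρ i (φ (c i0))) (p i0) (hp i0).pos
    (by rw [← map_pow, hα, map_one])
  obtain ⟨d1, d2, -⟩ := ex_torsion htf (ρ i (φ (c i))) (p i) (hp i).pos
    (by rw [← map_pow, hγ, map_one])
  have hαγ : Commute (ρ i (φ (c i))) (ρ i (φ (c i0))) := ((hcomm i).map φ).map (ρ i)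
  have hw : Commute (ρ i (φ (c i))).left (ρ i (φ (c i0))).left := by
    have h1 := congrArg SemidirectProduct.left hαγ.eq
    rw [SemidirectProduct.mul_left, SemidirectProduct.mul_left, d1, b1, map_one] at h1
    exact h1
  set wα := (ρ i (φ (c i0))).left with hwα
  set wγ := (ρ i (φ (c i))).left with hwγ
  have hprod : (wγ * wα) ^ (p i * p i0) = 1 := by
    rw [hw.mul_pow, pow_mul, d2, one_pow, mul_comm, pow_mul, b2, one_pow, mul_one]
  -- components of the abelian invariants
  have e1 : ∀ z, (mu wα z).1 = Pi.mulSingle (M := fun _ : Y i => K0) (h0 • y i) σ z := by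
    intro z
    have h1 := congrArg SemidirectProduct.left (hρR i hi (φ (c i0)))
    rw [emap_left, emap_left, a3] at h1
    have h2 := mu_wmap (MonoidHom.fst K0 (K i)) wα z
    rw [← hwα] at h1
    rw [h1] at h2
    have h3 : wmap (fun h : H => h • y i) (MonoidHom.id K0)
        (v * of (M := fun _ : H => K0) (i := h0) σ * v⁻¹) =
        wmap (fun h : H => h • y i) (MonoidHom.id K0) v *
          of (M := fun _ : Y i => K0) (i := h0 • y i) σ *
          (wmap (fun h : H => h • y i) (MonoidHom.id K0) v)⁻¹ := by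
      rw [map_mul, map_mul, map_inv, wmap_of]; rfl
    rw [h3, mu_conj] at h2
    exact h2.symm
  have e2 : ∀ z, (mu wα z).2 = 1 := by
    intro z
    have h1 : (mu wα z) ^ p i0 = 1 := by
      have := congrArg (fun f => mu f z) b2
      simpa using this
    have h2 : (mu wα z).2 ^ p i0 = 1 := by
      have := congrArg Prod.snd h1
      simpa using this
    have h3 := hK i (mu wα z).2
    have h4 := Nat.dvd_gcd (orderOf_dvd_of_pow_eq_one h2) (orderOf_dvd_of_pow_eq_one h3)
    rw [hcop] at h4
    exact orderOf_eq_one_iff.mp (Nat.dvd_one.mp h4)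
  have e3 : ∀ z, (mu wγ z).1 = 1 := by
    intro z
    have h1 : (mu wγ z) ^ p i = 1 := by
      have := congrArg (fun f => mu f z) d2
      simpa using this
    have h2 : (mu wγ z).1 ^ p i = 1 := by
      have := congrArg Prod.fst h1
      simpa using this
    have h3 := hK0 (mu wγ z).1
    have h4 := Nat.dvd_gcd (orderOf_dvd_of_pow_eq_one h3) (orderOf_dvd_of_pow_eq_one h2)
    rw [hcop] at h4
    exact orderOf_eq_one_iff.mp (Nat.dvd_one.mp h4)
  -- the product is supported at one point
  obtain ⟨y', κ, hκ⟩ : ∃ (y' : Y i) (κ : K0 × K i), mu (wγ * wα) = Pi.mulSingle y' κ := by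
    rcases torsion (wγ * wα) (p i * p i0) (Nat.mul_pos (hp i).pos (hp i0).pos) hprod with
      h | ⟨y', κ, u, -, h⟩
    · exact ⟨y i, 1, by rw [h, map_one, Pi.mulSingle_one]⟩
    · exact ⟨y', κ, by rw [h, mu_conj]⟩
  have hy' : y' = h0 • y i := by
    by_contra hne
    have h1 := congrFun hκ (h0 • y i)
    rw [Pi.mulSingle_eq_of_ne (Ne.symm hne), map_mul] at h1
    have h2 := congrArg Prod.fst h1
    rw [Pi.mul_apply, Prod.fst_mul, e3, e1, one_mul, Pi.mulSingle_eq_same] at h2
    exact hσ h2
  have e4 : ∀ z, z ≠ h0 • y i → (mu wγ z).2 = 1 := by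
    intro z hz
    have h1 := congrFun hκ z
    rw [hy', Pi.mulSingle_eq_of_ne hz, map_mul] at h1
    have h2 := congrArg Prod.snd h1
    rw [Pi.mul_apply, Prod.snd_mul, e2, mul_one] at h2
    exact h2
  -- the marker survives
  have hγ1 := marker_survives htf p hp hpi φ c π hc hker c' hc' i (hK i)
    ((emap (fun y : Y i => y) (fun _ _ => rfl) (MonoidHom.snd K0 (K i))).comp (ρ i))
    (hρc i hi)
  have e5 : (mu wγ (h0 • y i)).2 ≠ 1 := by
    intro h1
    apply hγ1
    rw [MonoidHom.comp_apply]
    obtain ⟨f1, f2, f3 | ⟨y'', k, u, hk, -, f3⟩⟩ := ex_torsion htf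
      (emap (fun y : Y i => y) (fun _ _ => rfl) (MonoidHom.snd K0 (K i)) (ρ i (φ (c i)))) (p i)
      (hp i).pos (by rw [← map_pow, ← map_pow, hγ, map_one, map_one])
    · exact f3
    · exfalso
      rw [emap_left] at f3
      have h2 := mu_wmap (MonoidHom.snd K0 (K i)) wγ y''
      have h3 : wmap (fun y : Y i => y) (MonoidHom.snd K0 (K i)) wγ =
        u * of (M := fun _ : Y i => K i) (i := y'') k * u⁻¹ := f3
      rw [h3, mu_conj, Pi.mulSingle_eq_same] at h2
      apply hk
      rw [h2]
      by_cases hz : y'' = h0 • y i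
      · rw [hz]; exact h1
      · exact e4 y'' hz
  -- the commuting element
  have hcm : Commute (ρ i (φ g)) (ρ i (φ (c i))) := (hg.map φ).map (ρ i)
  have h1 := congrArg SemidirectProduct.left hcm.eq
  rw [SemidirectProduct.mul_left, SemidirectProduct.mul_left, d1, map_one, hρ i hi] at h1
  have h2 : mu (act H (Y i) (K0 × K i) (π' (φ g)) wγ) = mu wγ := by
    have := congrArg mu h1
    rw [map_mul, map_mul] at this
    have h3 : mu (ρ i (φ g)).left * mu (act H (Y i) (K0 × K i) (π' (φ g)) wγ) =
        mu (ρ i (φ g)).left * mu wγ := by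
      rw [this]
      exact mul_comm _ _
    exact mul_left_cancel h3
  by_contra hne
  have h3 := mu_act (K := K0 × K i) (π' (φ g)) wγ (h0 • y i)
  rw [h2] at h3
  apply e5
  rw [← h3]
  exact e4 _ hne

end Main

end Pool.Agent.H476R3.Iso.Rig
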