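import Mathlib
import Pool.Agent.H476R3.Iso.Rig

set_option autoImplicit false

/-! The torsion free group on which the markers are placed. -/

namespace Pool.Agent.H476R3.Iso.HC

variable {X : Type} (rels : Set (FreeGroup X))

/-- Left and right translations. -/
def tr : FreeGroup X × FreeGroup X →* Equiv.Perm (PresentedGroup rels) where
  toFun a :=
    { toFun := fun γ => PresentedGroup.mk rels a.1 * γ * (PresentedGroup.mk rels a.2)⁻¹
      invFun := fun γ => (PresentedGroup.mk rels a.1)⁻¹ * γ * PresentedGroup.mk rels a.2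
      left_inv := fun γ => by group
      right_inv := fun γ => by group }
  map_one' := by ext γ; simp
  map_mul' a b := by
    ext γ
    simp only [Prod.fst_mul, Prod.snd_mul, map_mul, mul_inv_rev, Equiv.coe_fn_mk,
      Equiv.Perm.mul_apply]
    group

theorem tr_apply (a : FreeGroup X × FreeGroup X) (γ : PresentedGroup rels) :
    tr rels a γ = PresentedGroup.mk rels a.1 * γ * (PresentedGroup.mk rels a.2)⁻¹ := rfl

/-- The action on the free group. -/
def φ : FreeGroup X × FreeGroup X →* MulAut (FreeGroup (PresentedGroup rels)) where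
  toFun a := FreeGroup.freeGroupCongr (tr rels a)
  map_one' := by
    apply MulEquiv.ext
    intro x
    rw [map_one]
    simp
  map_mul' a b := by
    apply MulEquiv.ext
    intro x
    rw [map_mul]
    change FreeGroup.map _ x = FreeGroup.map _ (FreeGroup.map _ x)
    rw [FreeGroup.map.comp]
    rfl

theorem φ_of (a : FreeGroup X × FreeGroup X) (γ : PresentedGroup rels) :
    φ rels a (FreeGroup.of γ) =
      FreeGroup.of (PresentedGroup.mk rels a.1 * γ * (PresentedGroup.mk rels a.2)⁻¹) := by
  change FreeGroup.map _ (FreeGroup.of γ) = _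
  rw [FreeGroup.map.of]
  rfl

/-- The torsion free group. -/
abbrev HC : Type := FreeGroup (PresentedGroup rels) ⋊[φ rels] (FreeGroup X × FreeGroup X)

theorem free_tf {α : Type} (x : FreeGroup α) (n : ℕ) (hn : 0 < n) (h : x ^ n = 1) : x = 1 := by
  have := (pow_left_injective (M := FreeGroup α) (n := n)) (by omega)
  exact this (by simpa using h)

theorem hc_tf (x : HC rels) (n : ℕ) (hn : 0 < n) (h : x ^ n = 1) : x = 1 := by
  have h1 : x.right = 1 := by
    have h2 := congrArg SemidirectProduct.rightHom h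
    rw [map_pow, map_one] at h2
    have h3 : x.right ^ n = 1 := h2
    have h4 := congrArg Prod.fst h3
    have h5 := congrArg Prod.snd h3
    exact Prod.ext (free_tf _ n hn h4) (free_tf _ n hn h5)
  have h0 : x = SemidirectProduct.inl x.left := by
    ext
    · rfl
    · rw [h1]; rfl
    · rw [h1]; rfl
  rw [h0, ← map_pow] at h
  have h2 := SemidirectProduct.inl_injective (h.trans (map_one _).symm)
  rw [h0, free_tf _ n hn h2, map_one]

/-- The left letters. -/
def lw : FreeGroup X →* HC rels :=
  SemidirectProduct.inr.comp (MonoidHom.inl _ _)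

/-- The right letters. -/
def rw' : FreeGroup X →* HC rels :=
  SemidirectProduct.inr.comp (MonoidHom.inr _ _)

/-- The conjugates of the last letter. -/
def kw (γ : PresentedGroup rels) : HC rels := SemidirectProduct.inl (FreeGroup.of γ)

theorem inr_kw (a : FreeGroup X × FreeGroup X) (γ : PresentedGroup rels) :
    SemidirectProduct.inr a * kw rels γ * (SemidirectProduct.inr a)⁻¹ =
      kw rels (PresentedGroup.mk rels a.1 * γ * (PresentedGroup.mk rels a.2)⁻¹) := by
  have := SemidirectProduct.inl_aut (φ := φ rels) a (FreeGroup.of γ)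
  rw [φ_of] at this
  rw [kw, kw, this, ← map_inv]

theorem lw_kw (u : FreeGroup X) (γ : PresentedGroup rels) :
    lw rels u * kw rels γ * (lw rels u)⁻¹ = kw rels (PresentedGroup.mk rels u * γ) := by
  have := inr_kw rels (u, 1) γ
  simp only [map_one, inv_one, mul_one] at this
  exact this

theorem rw_kw (u : FreeGroup X) (γ : PresentedGroup rels) :
    rw' rels u * kw rels γ * (rw' rels u)⁻¹ = kw rels (γ * (PresentedGroup.mk rels u)⁻¹) := by
  have := inr_kw rels (1, u) γ
  simp only [map_one, one_mul] at this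
  exact this

theorem lw_rw (u v : FreeGroup X) : lw rels u * rw' rels v = SemidirectProduct.inr (u, v) := by
  simp [lw, rw', ← map_mul]

/-- Generators of the marked group. -/
inductive Gen (X : Type) : Type
  | l (x : X)
  | r (x : X)
  | k
  | c (i : Fin 6)

/-- Left copies of words. -/
def L : FreeGroup X →* FreeGroup (Gen X) := FreeGroup.map Gen.l

/-- Right copies of words. -/
def Rr : FreeGroup X →* FreeGroup (Gen X) := FreeGroup.map Gen.r

/-- The last letter. -/
def kk : FreeGroup (Gen X) := FreeGroup.of Gen.k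

/-- The markers. -/
def cc (i : Fin 6) : FreeGroup (Gen X) := FreeGroup.of (Gen.c i)

/-- The orders of the markers. -/
def p (i : Fin 6) : ℕ := ![2, 3, 5, 7, 11, 13] i

theorem hp (i : Fin 6) : (p i).Prime := by
  fin_cases i <;> simp [p] <;> norm_num

theorem hpi : Function.Injective p := by
  intro i j h
  fin_cases i <;> fin_cases j <;> simp_all [p]

/-- The relators of the torsion free part. -/
def rel0 : Set (FreeGroup (Gen X)) :=
  Set.range (fun q : X × X => L (FreeGroup.of q.1) * Rr (FreeGroup.of q.2) *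
    (L (FreeGroup.of q.1))⁻¹ * (Rr (FreeGroup.of q.2))⁻¹) ∪
  Set.range (fun x : X => kk * (L (FreeGroup.of x) * Rr (FreeGroup.of x)) * kk⁻¹ *
    (L (FreeGroup.of x) * Rr (FreeGroup.of x))⁻¹) ∪
  (fun ρ => kk * Rr ρ * kk⁻¹ * (Rr ρ)⁻¹) '' rels

/-- The words commuting with a marker. -/
def marks (A : Set (FreeGroup X)) (x t : X) (g : FreeGroup X) (i : Fin 6) :
    Set (FreeGroup (Gen X)) :=
  ![∅, {L (FreeGroup.of x)}, {L (FreeGroup.of t)}, {L (FreeGroup.of x) * L (FreeGroup.of t)},
    {kk}, L '' A ∪ Rr '' A ∪ {L g * kk * (L g)⁻¹}] i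

variable (A : Set (FreeGroup X)) (x t : X) (g : FreeGroup X)

/-- All relators. -/
def rel : Set (FreeGroup (Gen X)) :=
  rel0 rels ∪ Set.range (fun i => cc i ^ p i) ∪
  Set.range (fun i => cc i * cc 0 * (cc i)⁻¹ * (cc 0)⁻¹) ∪
  ⋃ i, (fun w => cc i * w * (cc i)⁻¹ * w⁻¹) '' marks A x t g i

/-- The marked group. -/
abbrev MG : Type := PresentedGroup (rel rels A x t g)

section Hrel

variable {𝒢 : Type} [Group 𝒢] (f : FreeGroup (Gen X) →* 𝒢) (hf : ∀ w ∈ rel0 rels, f w = 1)

include hf

theorem comm_lr0 (x y : X) : Commute (f (L (FreeGroup.of x))) (f (Rr (FreeGroup.of y))) := by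
  have := hf _ (Or.inl (Or.inl ⟨(x, y), rfl⟩))
  simp only [map_mul, map_inv] at this
  rw [mul_inv_eq_one, mul_inv_eq_iff_eq_mul] at this
  exact this

theorem comm_lr (u v : FreeGroup X) : Commute (f (L u)) (f (Rr v)) := by
  induction u using FreeGroup.induction_on with
  | C1 => rw [map_one, map_one]; exact Commute.one_left _
  | of x =>
    induction v using FreeGroup.induction_on with
    | C1 => rw [map_one, map_one]; exact Commute.one_right _
    | of y => exact comm_lr0 rels f hf x y
    | inv_of y ih => rw [map_inv, map_inv]; exact ih.inv_right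
    | mul a b ha hb => rw [map_mul, map_mul]; exact ha.mul_right hb
  | inv_of x ih => rw [map_inv, map_inv]; exact ih.inv_left
  | mul a b ha hb => rw [map_mul, map_mul]; exact ha.mul_left hb

theorem comm_k0 (x : X) : Commute (f kk) (f (L (FreeGroup.of x)) * f (Rr (FreeGroup.of x))) := by
  have := hf _ (Or.inl (Or.inr ⟨x, rfl⟩))
  simp only [map_mul, map_inv] at this
  rw [mul_inv_eq_one, mul_inv_eq_iff_eq_mul] at this
  exact this

theorem comm_k (u : FreeGroup X) : Commute (f kk) (f (L u) * f (Rr u)) := by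
  induction u using FreeGroup.induction_on with
  | C1 => simp
  | of x => exact comm_k0 rels f hf x
  | inv_of x ih =>
    have : f (L (FreeGroup.of x)⁻¹) * f (Rr (FreeGroup.of x)⁻¹) =
        (f (L (FreeGroup.of x)) * f (Rr (FreeGroup.of x)))⁻¹ := by
      rw [mul_inv_rev, map_inv, map_inv, map_inv, map_inv]
      exact ((comm_lr rels f hf _ _).inv_inv).eq
    rw [this]
    exact ih.inv_right
  | mul a b ha hb =>
    have : f (L (a * b)) * f (Rr (a * b)) =
        (f (L a) * f (Rr a)) * (f (L b) * f (Rr b)) := by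
      have h1 := (comm_lr rels f hf b a).eq
      simp only [map_mul]
      calc f (L a) * f (L b) * (f (Rr a) * f (Rr b)) =
          f (L a) * (f (L b) * f (Rr a)) * f (Rr b) := by group
        _ = f (L a) * (f (Rr a) * f (L b)) * f (Rr b) := by rw [h1]
        _ = _ := by group
    rw [this]
    exact ha.mul_right hb

theorem comm_kn (n : FreeGroup X) (hn : n ∈ Subgroup.normalClosure rels) :
    Commute (f kk) (f (Rr n)) := by
  let N : Subgroup (FreeGroup X) :=
    { carrier := {n | Commute (f kk) (f (Rr n))}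
      one_mem' := by simp
      mul_mem' := by
        intro a b ha hb
        simp only [Set.mem_setOf_eq, map_mul] at *
        exact ha.mul_right hb
      inv_mem' := by
        intro a ha
        simp only [Set.mem_setOf_eq, map_inv] at *
        exact ha.inv_right }
  have hN : N.Normal := by
    constructor
    intro n hn u
    change Commute (f kk) (f (Rr (u * n * u⁻¹)))
    have hn : Commute (f kk) (f (Rr n)) := hn
    have h1 := comm_k rels f hf u
    have h2 : f (Rr (u * n * u⁻¹)) =
        (f (L u) * f (Rr u)) * f (Rr n) * (f (L u) * f (Rr u))⁻¹ := by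
      have h3 := (comm_lr rels f hf u (u * n * u⁻¹)).eq
      have : f (Rr (u * n * u⁻¹)) = f (L u) * f (Rr (u * n * u⁻¹)) * (f (L u))⁻¹ := by
        rw [h3]; group
      rw [this]
      simp only [map_mul, map_inv]
      group
    rw [h2]
    exact (h1.mul_right hn).mul_right h1.inv_right
  have hle : Subgroup.normalClosure rels ≤ N := by
    apply Subgroup.normalClosure_le_normal
    intro ρ hρ
    change Commute (f kk) (f (Rr ρ))
    have := hf _ (Or.inr ⟨ρ, hρ, rfl⟩)
    simp only [map_mul, map_inv] at this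
    rw [mul_inv_eq_one, mul_inv_eq_iff_eq_mul] at this
    exact this
  exact hle hn

theorem comm_kn' (n : FreeGroup X) (hn : n ∈ Subgroup.normalClosure rels) :
    Commute (f kk) (f (L n)) := by
  have h1 := comm_kn rels f hf n hn
  have h2 := comm_k rels f hf n
  have : f (L n) = (f (L n) * f (Rr n)) * (f (Rr n))⁻¹ := by group
  rw [this]
  exact h2.mul_right h1.inv_right

theorem kconj_eq (w w' : FreeGroup X)
    (h : PresentedGroup.mk rels w = PresentedGroup.mk rels w') :
    f (L w) * f kk * (f (L w))⁻¹ = f (L w') * f kk * (f (L w'))⁻¹ := by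
  have h1 : w⁻¹ * w' ∈ Subgroup.normalClosure rels := by
    rw [← QuotientGroup.eq]; exact h
  have h2 := (comm_kn' rels f hf _ h1).eq
  rw [map_mul, map_mul, map_inv, map_inv] at h2
  calc f (L w) * f kk * (f (L w))⁻¹ =
      f (L w) * (f kk * ((f (L w))⁻¹ * f (L w'))) * (f (L w'))⁻¹ := by group
    _ = f (L w) * (((f (L w))⁻¹ * f (L w')) * f kk) * (f (L w'))⁻¹ := by rw [h2]
    _ = _ := by group

theorem rconj (v w : FreeGroup X) :
    f (Rr v) * (f (L w) * f kk * (f (L w))⁻¹) * (f (Rr v))⁻¹ =
      f (L (w * v⁻¹)) * f kk * (f (L (w * v⁻¹)))⁻¹ := by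
  have h1 := comm_k rels f hf v
  have h2 : f (Rr v) * f kk * (f (Rr v))⁻¹ = (f (L v))⁻¹ * f kk * f (L v) := by
    have h3 := h1.eq
    have h4 := (comm_lr rels f hf v v).eq
    calc f (Rr v) * f kk * (f (Rr v))⁻¹ =
        (f (L v))⁻¹ * ((f (L v) * f (Rr v)) * f kk) * (f (Rr v))⁻¹ := by group
      _ = (f (L v))⁻¹ * (f kk * (f (L v) * f (Rr v))) * (f (Rr v))⁻¹ := by rw [h3]
      _ = _ := by group
  have h5 := (comm_lr rels f hf w v).eq
  have h6 : f (Rr v) * f (L w) = f (L w) * f (Rr v) := h5.symm
  calc f (Rr v) * (f (L w) * f kk * (f (L w))⁻¹) * (f (Rr v))⁻¹ =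
      (f (Rr v) * f (L w)) * f kk * (f (Rr v) * f (L w))⁻¹ := by group
    _ = (f (L w) * f (Rr v)) * f kk * (f (L w) * f (Rr v))⁻¹ := by rw [h6]
    _ = f (L w) * (f (Rr v) * f kk * (f (Rr v))⁻¹) * (f (L w))⁻¹ := by group
    _ = _ := by
      rw [h2]
      simp only [map_mul, map_inv]
      group

/-- The universal property of the torsion free group. -/
theorem exists_eta : ∃ η : HC rels →* 𝒢,
    (∀ w, η (kw rels (PresentedGroup.mk rels w)) = f (L w) * f kk * (f (L w))⁻¹) ∧
    (∀ u, η (lw rels u) = f (L u)) ∧ (∀ u, η (rw' rels u) = f (Rr u)) := by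
  classical
  let s : PresentedGroup rels → FreeGroup X := Function.surjInv (PresentedGroup.mk_surjective rels)
  have hs : ∀ γ, PresentedGroup.mk rels (s γ) = γ :=
    Function.surjInv_eq (PresentedGroup.mk_surjective rels)
  let fl : FreeGroup (PresentedGroup rels) →* 𝒢 :=
    FreeGroup.lift (fun γ => f (L (s γ)) * f kk * (f (L (s γ)))⁻¹)
  have hfl : ∀ w, fl (FreeGroup.of (PresentedGroup.mk rels w)) =
      f (L w) * f kk * (f (L w))⁻¹ := by
    intro w
    change FreeGroup.lift _ _ = _
    rw [FreeGroup.lift_apply_of]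
    exact kconj_eq rels f hf _ _ (hs _)
  let fr : FreeGroup X × FreeGroup X →* 𝒢 :=
    MonoidHom.noncommCoprod (f.comp L) (f.comp Rr) (fun u v => comm_lr rels f hf u v)
  have hfr : ∀ u v, fr (u, v) = f (L u) * f (Rr v) := fun u v => rfl
  refine ⟨SemidirectProduct.lift fl fr ?_, ?_, ?_, ?_⟩
  · rintro ⟨u, v⟩
    apply FreeGroup.ext_hom
    intro γ
    obtain ⟨w, rfl⟩ := PresentedGroup.mk_surjective rels γ
    simp only [MonoidHom.comp_apply, MulEquiv.coe_toMonoidHom, MulAut.conj_apply]
    rw [φ_of, hfr]
    have h1 : PresentedGroup.mk rels u * PresentedGroup.mk rels w * (PresentedGroup.mk rels v)⁻¹ =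
        PresentedGroup.mk rels (u * (w * v⁻¹)) := by
      simp [mul_assoc]
    rw [h1, hfl, hfl]
    have h2 := rconj rels f hf v w
    calc f (L (u * (w * v⁻¹))) * f kk * (f (L (u * (w * v⁻¹))))⁻¹ =
        f (L u) * (f (L (w * v⁻¹)) * f kk * (f (L (w * v⁻¹)))⁻¹) * (f (L u))⁻¹ := by
          rw [map_mul L u, map_mul f (L u)]; group
      _ = _ := by rw [← h2]; group
  · intro w
    rw [kw, SemidirectProduct.lift_inl, hfl]
  · intro u
    change SemidirectProduct.lift fl fr _ (SemidirectProduct.inr (u, 1)) = _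
    rw [SemidirectProduct.lift_inr, hfr]
    simp
  · intro u
    change SemidirectProduct.lift fl fr _ (SemidirectProduct.inr (1, u)) = _
    rw [SemidirectProduct.lift_inr, hfr]
    simp

end Hrel

section Homs

variable {rels A x t g}

/-- The images of the generators in the torsion free group. -/
def gm : Gen X → HC rels
  | .l x => lw rels (FreeGroup.of x)
  | .r x => rw' rels (FreeGroup.of x)
  | .k => kw rels 1
  | .c _ => 1

variable (rels) in
/-- The homomorphism from the free group. -/
def fm : FreeGroup (Gen X) →* HC rels := FreeGroup.lift gm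

theorem fm_L (u : FreeGroup X) : fm rels (L u) = lw rels u := by
  suffices h : (fm rels).comp L = lw rels from DFunLike.congr_fun h u
  apply FreeGroup.ext_hom
  intro x
  simp [fm, L, gm]

theorem fm_R (u : FreeGroup X) : fm rels (Rr u) = rw' rels u := by
  suffices h : (fm rels).comp Rr = rw' rels from DFunLike.congr_fun h u
  apply FreeGroup.ext_hom
  intro x
  simp [fm, Rr, gm]

theorem fm_k : fm rels kk = kw rels 1 := by simp [fm, kk, gm]

theorem fm_c (i : Fin 6) : fm rels (cc i) = 1 := by simp [fm, cc, gm]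

theorem fm_rel0 : ∀ w ∈ rel0 rels, fm rels w = 1 := by
  rintro w ((⟨⟨x, y⟩, rfl⟩ | ⟨x, rfl⟩) | ⟨ρ, hρ, rfl⟩)
  · simp only [map_mul, map_inv, fm_L, fm_R]
    rw [mul_inv_eq_one, mul_inv_eq_iff_eq_mul]
    simp [lw, rw', ← map_mul]
  · simp only [map_mul, map_inv, fm_L, fm_R, fm_k]
    rw [mul_inv_eq_one, mul_inv_eq_iff_eq_mul, lw_rw]
    have := inr_kw rels (FreeGroup.of x, FreeGroup.of x) 1
    simp only [mul_one, mul_inv_cancel] at this
    rw [mul_inv_eq_iff_eq_mul] at this
    exact this.symm
  · simp only [map_mul, map_inv, fm_R, fm_k]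
    rw [mul_inv_eq_one, mul_inv_eq_iff_eq_mul]
    have := rw_kw rels ρ 1
    have h1 : PresentedGroup.mk rels ρ = 1 := PresentedGroup.one_of_mem hρ
    rw [h1, inv_one, mul_one, mul_inv_eq_iff_eq_mul] at this
    exact this.symm

/-- A homomorphism from the marked group. -/
theorem fm_rel : ∀ w ∈ rel rels A x t g, fm rels w = 1 := by
  rintro w (((hw | ⟨i, rfl⟩) | ⟨i, rfl⟩) | hw)
  · exact fm_rel0 w hw
  · simp [fm_c]
  · simp [fm_c]
  · rw [Set.mem_iUnion] at hw
    obtain ⟨i, w, hw, rfl⟩ := hw
    simp [fm_c]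

end Homs

/-- The projection of the marked group. -/
def pr : MG rels A x t g →* HC rels := PresentedGroup.toGroup (f := gm) fm_rel

theorem pr_mk (w : FreeGroup (Gen X)) :
    pr rels A x t g (PresentedGroup.mk (rel rels A x t g) w) = fm rels w := rfl

/-- The marker elements. -/
def ce (i : Fin 6) : MG rels A x t g := PresentedGroup.mk _ (cc i)

theorem mk_rel {w : FreeGroup (Gen X)} (hw : w ∈ rel rels A x t g) :
    PresentedGroup.mk (rel rels A x t g) w = 1 := PresentedGroup.one_of_mem hw

theorem ce_pow (i : Fin 6) : ce rels A x t g i ^ p i = 1 := by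
  rw [ce, ← map_pow]
  exact mk_rel rels A x t g (Or.inl (Or.inl (Or.inr ⟨i, rfl⟩)))

theorem ce_comm (i : Fin 6) : Commute (ce rels A x t g i) (ce rels A x t g 0) := by
  have := mk_rel rels A x t g (Or.inl (Or.inr ⟨i, rfl⟩))
  simp only [map_mul, map_inv] at this
  rw [mul_inv_eq_one, mul_inv_eq_iff_eq_mul] at this
  exact this

theorem ce_mark (i : Fin 6) (w : FreeGroup (Gen X)) (hw : w ∈ marks A x t g i) :
    Commute (PresentedGroup.mk (rel rels A x t g) w) (ce rels A x t g i) := by
  have := mk_rel rels A x t g (Or.inr (Set.mem_iUnion.mpr ⟨i, w, hw, rfl⟩))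
  simp only [map_mul, map_inv] at this
  rw [mul_inv_eq_one, mul_inv_eq_iff_eq_mul] at this
  exact this.symm

/-- The kernel of the projection. -/
theorem ker_pr (a : MG rels A x t g) (ha : pr rels A x t g a = 1) :
    a ∈ Subgroup.normalClosure (Set.range (ce rels A x t g)) := by
  let N := Subgroup.normalClosure (Set.range (ce rels A x t g))
  let q : MG rels A x t g →* MG rels A x t g ⧸ N := QuotientGroup.mk' N
  let f : FreeGroup (Gen X) →* MG rels A x t g ⧸ N := q.comp (PresentedGroup.mk _)
  obtain ⟨η, h1, h2, h3⟩ := exists_eta rels f (by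
    intro w hw
    change q (PresentedGroup.mk _ w) = 1
    rw [mk_rel rels A x t g (Or.inl (Or.inl (Or.inl hw))), map_one])
  have h4 : η.comp (pr rels A x t g) = q := by
    apply PresentedGroup.ext
    intro y
    rw [MonoidHom.comp_apply]
    have e : ∀ y, pr rels A x t g (PresentedGroup.of y) = gm y := fun y =>
      PresentedGroup.toGroup.of fm_rel
    rw [e]
    cases y with
    | l x' =>
      change η (lw rels (FreeGroup.of x')) = _
      rw [h2]
      change q (PresentedGroup.mk _ (L (FreeGroup.of x'))) = _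
      simp only [L, FreeGroup.map.of]; rfl
    | r x' =>
      change η (rw' rels (FreeGroup.of x')) = _
      rw [h3]
      change q (PresentedGroup.mk _ (Rr (FreeGroup.of x'))) = _
      simp only [Rr, FreeGroup.map.of]; rfl
    | k =>
      change η (kw rels 1) = _
      have := h1 1
      simp only [map_one, one_mul, inv_one, mul_one] at this
      rw [this]; rfl
    | c i =>
      change η 1 = _
      rw [map_one]
      symm
      change q (ce rels A x t g i) = 1
      exact (QuotientGroup.eq_one_iff _).mpr (Subgroup.subset_normalClosure ⟨i, rfl⟩)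
  have h5 := DFunLike.congr_fun h4 a
  rw [MonoidHom.comp_apply, ha, map_one] at h5
  exact (QuotientGroup.eq_one_iff _).mp h5.symm

end Pool.Agent.H476R3.Iso.HC
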