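import Mathlib
import Pool.Agent.H476R3.Iso.HC

set_option autoImplicit false

/-! The isomorphism type of the marked group determines a double coset. -/

namespace Pool.Agent.H476R3.Iso.App

open Pool.Agent.H476R3.Iso.HC Pool.Agent.H476R3.Iso.Rig Monoid

variable {X : Type} (rels A : Set (FreeGroup X)) (x t : X) (g : FreeGroup X)

/-- Words without markers. -/
def MW (X : Type) : Subgroup (FreeGroup (Gen X)) :=
  Subgroup.closure (Set.range (L (X := X)) ∪ Set.range (Rr (X := X)) ∪ {kk})

theorem L_mem (u : FreeGroup X) : L u ∈ MW X := Subgroup.subset_closure (Or.inl (Or.inl ⟨u, rfl⟩))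

theorem R_mem (u : FreeGroup X) : Rr u ∈ MW X := Subgroup.subset_closure (Or.inl (Or.inr ⟨u, rfl⟩))

theorem kk_mem : (kk : FreeGroup (Gen X)) ∈ MW X := Subgroup.subset_closure (Or.inr rfl)

theorem rel0_mem {w : FreeGroup (Gen X)} (hw : w ∈ rel0 rels) : w ∈ MW X := by
  rcases hw with (⟨⟨x, y⟩, rfl⟩ | ⟨x, rfl⟩) | ⟨ρ, hρ, rfl⟩
  · exact mul_mem (mul_mem (mul_mem (L_mem _) (R_mem _)) (inv_mem (L_mem _))) (inv_mem (R_mem _))
  · exact mul_mem (mul_mem (mul_mem kk_mem (mul_mem (L_mem _) (R_mem _))) (inv_mem kk_mem))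
      (inv_mem (mul_mem (L_mem _) (R_mem _)))
  · exact mul_mem (mul_mem (mul_mem kk_mem (R_mem _)) (inv_mem kk_mem)) (inv_mem (R_mem _))

theorem marks_mem (i : Fin 6) {w : FreeGroup (Gen X)} (hw : w ∈ marks A x t g i) : w ∈ MW X := by
  fin_cases i
  · simp [marks] at hw
  · simp [marks] at hw; rw [hw]; exact L_mem _
  · simp [marks] at hw; rw [hw]; exact L_mem _
  · simp [marks] at hw; rw [hw]; exact mul_mem (L_mem _) (L_mem _)
  · simp [marks] at hw; rw [hw]; exact kk_mem
  · change w ∈ L '' A ∪ Rr '' A ∪ {L g * kk * (L g)⁻¹} at hw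
    rcases hw with (⟨a, _, rfl⟩ | ⟨a, _, rfl⟩) | hw
    · exact L_mem _
    · exact R_mem _
    · rw [Set.mem_singleton_iff.mp hw]
      exact mul_mem (mul_mem (L_mem _) kk_mem) (inv_mem (L_mem _))

section Uni

variable {Y K : Type} [MulAction (HC rels) Y] [CommGroup K] (y0 : Y) (z : Fin 6 → K)

/-- Images of the generators. -/
def gu : Gen X → Ex (HC rels) Y K
  | .l x => SemidirectProduct.inr (lw rels (FreeGroup.of x))
  | .r x => SemidirectProduct.inr (rw' rels (FreeGroup.of x))
  | .k => SemidirectProduct.inr (kw rels 1)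
  | .c i => SemidirectProduct.inl (CoprodI.of (M := fun _ : Y => K) (i := y0) (z i))

/-- The homomorphism on the free group. -/
def fu : FreeGroup (Gen X) →* Ex (HC rels) Y K := FreeGroup.lift (gu rels y0 z)

theorem fu_c (i : Fin 6) : fu rels y0 z (cc i) =
    SemidirectProduct.inl (CoprodI.of (M := fun _ : Y => K) (i := y0) (z i)) := by
  simp [fu, cc, gu]

theorem fu_mem {w : FreeGroup (Gen X)} (hw : w ∈ MW X) :
    fu rels y0 z w = SemidirectProduct.inr (fm rels w) := by
  have hL : ∀ u, fu rels y0 z (L u) = SemidirectProduct.inr (fm rels (L u)) := by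
    intro u
    suffices h : (fu rels y0 z).comp L =
        (SemidirectProduct.inr.comp (fm rels)).comp L from DFunLike.congr_fun h u
    apply FreeGroup.ext_hom
    intro x
    simp [fu, fm, L, gm, gu]
  have hR : ∀ u, fu rels y0 z (Rr u) = SemidirectProduct.inr (fm rels (Rr u)) := by
    intro u
    suffices h : (fu rels y0 z).comp Rr =
        (SemidirectProduct.inr.comp (fm rels)).comp Rr from DFunLike.congr_fun h u
    apply FreeGroup.ext_hom
    intro x
    simp [fu, fm, Rr, gm, gu]
  have hle : MW X ≤ MonoidHom.eqLocus (fu rels y0 z) (SemidirectProduct.inr.comp (fm rels)) := by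
    rw [MW, Subgroup.closure_le]
    rintro w ((⟨u, rfl⟩ | ⟨u, rfl⟩) | hw)
    · exact hL u
    · exact hR u
    · rw [Set.mem_singleton_iff.mp hw]
      change fu rels y0 z kk = SemidirectProduct.inr (fm rels kk)
      simp [fu, fm, kk, gm, gu]
  exact hle hw

variable {rels y0 z}

theorem inr_inl_of (h : HC rels) (y : Y) (k : K) :
    (SemidirectProduct.inr h : Ex (HC rels) Y K) *
      SemidirectProduct.inl (CoprodI.of (M := fun _ : Y => K) (i := y) k) *
      (SemidirectProduct.inr h)⁻¹ =
      SemidirectProduct.inl (CoprodI.of (M := fun _ : Y => K) (i := h • y) k) := by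
  have := SemidirectProduct.inl_aut (φ := act (HC rels) Y K) h
    (CoprodI.of (M := fun _ : Y => K) (i := y) k)
  rw [act_of] at this
  rw [this, ← map_inv]

theorem fu_rel (hz : ∀ i, z i ^ p i = 1)
    (hst : ∀ i, z i = 1 ∨ ∀ w ∈ marks A x t g i, fm rels w • y0 = y0) :
    ∀ w ∈ rel rels A x t g, fu rels y0 z w = 1 := by
  rintro w (((hw | ⟨i, rfl⟩) | ⟨i, rfl⟩) | hw)
  · rw [fu_mem rels y0 z (rel0_mem rels hw), fm_rel0 w hw, map_one]
  · change fu rels y0 z (cc i ^ p i) = 1
    rw [map_pow, fu_c, ← map_pow, ← map_pow, hz, map_one, map_one]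
  · simp only [map_mul, map_inv, fu_c]
    rw [mul_inv_eq_one, mul_inv_eq_iff_eq_mul, ← map_mul, ← map_mul, ← map_mul, ← map_mul,
      mul_comm]
  · rw [Set.mem_iUnion] at hw
    obtain ⟨i, w, hw, rfl⟩ := hw
    simp only [map_mul, map_inv, fu_c]
    rw [fu_mem rels y0 z (marks_mem A x t g i hw)]
    rcases hst i with h | h
    · rw [h]; simp
    · have h1 := inr_inl_of (rels := rels) (fm rels w) y0 (z i)
      rw [h w hw] at h1
      rw [mul_inv_eq_one, mul_inv_eq_iff_eq_mul]
      rw [mul_inv_eq_iff_eq_mul] at h1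
      exact h1.symm

variable (rels y0 z)

/-- The marked group maps to the free product extensions. -/
def uni (hz : ∀ i, z i ^ p i = 1)
    (hst : ∀ i, z i = 1 ∨ ∀ w ∈ marks A x t g i, fm rels w • y0 = y0) :
    MG rels A x t g →* Ex (HC rels) Y K :=
  PresentedGroup.toGroup (f := gu rels y0 z) (fu_rel A x t g hz hst)

theorem uni_of (hz : ∀ i, z i ^ p i = 1)
    (hst : ∀ i, z i = 1 ∨ ∀ w ∈ marks A x t g i, fm rels w • y0 = y0) (y : Gen X) :
    uni rels A x t g y0 z hz hst (PresentedGroup.of y) = gu rels y0 z y :=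
  PresentedGroup.toGroup.of (fu_rel A x t g hz hst)

theorem uni_right (hz : ∀ i, z i ^ p i = 1)
    (hst : ∀ i, z i = 1 ∨ ∀ w ∈ marks A x t g i, fm rels w • y0 = y0) (a : MG rels A x t g) :
    (uni rels A x t g y0 z hz hst a).right = pr rels A x t g a := by
  suffices h : SemidirectProduct.rightHom.comp (uni rels A x t g y0 z hz hst) =
      pr rels A x t g from DFunLike.congr_fun h a
  apply PresentedGroup.ext
  intro y
  rw [MonoidHom.comp_apply, uni_of]
  have e : pr rels A x t g (PresentedGroup.of y) = gm y := PresentedGroup.toGroup.of fm_rel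
  rw [e]
  cases y <;> simp [gu, gm]

end Uni

section ZMods

theorem zmod_pow (n : ℕ) (k : Multiplicative (ZMod n)) : k ^ n = 1 := by
  apply Multiplicative.toAdd.injective
  simp

/-- A generator. -/
def zg (n : ℕ) : Multiplicative (ZMod n) := Multiplicative.ofAdd 1

theorem zg_ne (i : Fin 6) : zg (p i) ≠ 1 := by
  have : Fact (p i).Prime := ⟨hp i⟩
  intro h
  have h1 := congrArg Multiplicative.toAdd h
  simp only [zg, toAdd_ofAdd, toAdd_one] at h1
  exact one_ne_zero h1

end ZMods

/-- The marked subgroups. -/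
def SS (i : Fin 6) : Subgroup (HC rels) := Subgroup.closure (fm rels '' marks A x t g i)

variable {g} {g' : FreeGroup X}

/-- Rigidity of the marked groups. -/
theorem rigid_mg (e : MG rels A x t g ≃* MG rels A x t g') :
    ∃ h0 : HC rels, ∀ i, i ≠ 0 → ∀ a : MG rels A x t g, Commute a (ce rels A x t g i) →
      h0⁻¹ * pr rels A x t g' (e a) * h0 ∈ SS rels A x t g' i := by
  classical
  let K0 := Multiplicative (ZMod (p 0))
  let K : Fin 6 → Type := fun i => Multiplicative (ZMod (p i))
  let Y : Fin 6 → Type := fun i => HC rels ⧸ SS rels A x t g' i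
  let z0 : Fin 6 → K0 := fun j => if j = 0 then zg _ else 1
  let z : ∀ i, Fin 6 → K0 × K i := fun i j => if j = 0 then (zg _, 1) else
    if j = i then (1, zg _) else 1
  have hz0 : ∀ j, z0 j ^ p j = 1 := by
    intro j
    by_cases hj : j = 0
    · subst hj; exact zmod_pow _ _
    · simp [z0, hj]
  have hz : ∀ i j, z i j ^ p j = 1 := by
    intro i j
    by_cases hj : j = 0
    · subst hj
      simp only [z, if_true]
      exact Prod.ext (zmod_pow _ _) (one_pow _)
    · by_cases hji : j = i
      · subst hji
        simp only [z, hj, if_false, if_true]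
        exact Prod.ext (one_pow _) (zmod_pow _ _)
      · simp [z, hj, hji]
  have h0m : ∀ w, w ∉ marks A x t g' 0 := by
    intro w hw
    simp [marks] at hw
  have hst0 : ∀ j, z0 j = 1 ∨ ∀ w ∈ marks A x t g' j, fm rels w • (1 : HC rels) = 1 := by
    intro j
    by_cases hj : j = 0
    · subst hj
      exact Or.inr fun w hw => absurd hw (h0m w)
    · left; simp [z0, hj]
  have hst : ∀ i j, z i j = 1 ∨ ∀ w ∈ marks A x t g' j,
      fm rels w • (QuotientGroup.mk 1 : Y i) = QuotientGroup.mk 1 := by
    intro i j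
    by_cases hj : j = 0
    · subst hj
      exact Or.inr fun w hw => absurd hw (h0m w)
    · by_cases hji : j = i
      · subst hji
        right
        intro w hw
        change (QuotientGroup.mk (fm rels w * 1) : Y j) = _
        rw [mul_one, QuotientGroup.eq]
        rw [mul_one]
        exact inv_mem (Subgroup.subset_closure ⟨w, hw, rfl⟩)
      · left; simp [z, hj, hji]
  let R0 := uni rels A x t g' (Y := HC rels) (1 : HC rels) z0 hz0 hst0
  let ρ := fun i => uni rels A x t g' (QuotientGroup.mk 1 : Y i) (z i) (hz i) (hst i)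
  have hcec : ∀ i, ce rels A x t g' i = PresentedGroup.of (Gen.c i) := fun i => rfl
  obtain ⟨h0, hh⟩ := rigid (htf := hc_tf rels) (p := p) hp hpi e (ce rels A x t g)
    (pr rels A x t g) (ce_pow rels A x t g) (ker_pr rels A x t g) (ce rels A x t g')
    (ce_pow rels A x t g') 0 (ce_comm rels A x t g) (pr rels A x t g')
    (Y := Y) (fun i => (QuotientGroup.mk 1 : Y i)) (K0 := K0) (zmod_pow _) (K := K)
    (fun i => zmod_pow _) R0 (by
      intro h
      rw [hcec] at h
      have h1 : R0 (PresentedGroup.of (Gen.c 0)) = _ := uni_of rels A x t g' _ _ hz0 hst0 _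
      rw [h1] at h
      change SemidirectProduct.inl _ = _ at h
      have h2 := SemidirectProduct.inl_injective (h.trans (map_one _).symm)
      have h3 := CoprodI.of_injective (M := fun _ : HC rels => K0) (1 : HC rels)
        (h2.trans (map_one _).symm)
      simp only [z0, if_true] at h3
      exact zg_ne 0 h3) ρ (fun i _ a => uni_right rels A x t g' _ _ _ _ a) (by
      intro i hi h
      rw [hcec] at h
      have h1 : ρ i (PresentedGroup.of (Gen.c i)) = _ := uni_of rels A x t g' _ _ (hz i) (hst i) _
      rw [h1] at h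
      have h2 := congrArg SemidirectProduct.left h
      rw [emap_left] at h2
      change wmap _ _ (CoprodI.of (M := fun _ : Y i => K0 × K i) (i := QuotientGroup.mk 1) _) = 1
        at h2
      rw [wmap_of] at h2
      have h3 := CoprodI.of_injective (M := fun _ : Y i => K i) (QuotientGroup.mk 1 : Y i)
        (h2.trans (map_one _).symm)
      simp only [z, hi, if_false, if_true] at h3
      exact zg_ne i h3) (by
      intro i hi a
      have hEq : (emap (fun y : Y i => y) (fun _ _ => rfl) (MonoidHom.fst K0 (K i))).comp (ρ i) =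
          (emap (fun h : HC rels => h • (QuotientGroup.mk 1 : Y i)) (fun h h' => by
            simp [mul_smul]) (MonoidHom.id K0)).comp R0 := by
        apply PresentedGroup.ext
        intro y
        rw [MonoidHom.comp_apply, MonoidHom.comp_apply]
        have h1 : ρ i (PresentedGroup.of y) = _ := uni_of rels A x t g' _ _ (hz i) (hst i) _
        have h2 : R0 (PresentedGroup.of y) = _ := uni_of rels A x t g' _ _ hz0 hst0 _
        rw [h1, h2]
        cases y with
        | l x' => apply SemidirectProduct.ext <;> simp [gu, emap]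
        | r x' => apply SemidirectProduct.ext <;> simp [gu, emap]
        | k => apply SemidirectProduct.ext <;> simp [gu, emap]
        | c j =>
          simp only [gu, emap, SemidirectProduct.map_inl]
          congr 1
          rw [wmap_of, wmap_of, one_smul]
          congr 1
          by_cases hj : j = 0
          · simp [z, z0, hj]
          · by_cases hji : j = i
            · simp [z, z0, hji, hi]
            · simp [z, z0, hj, hji]
      exact DFunLike.congr_fun hEq a)
  refine ⟨h0, fun i hi a ha => ?_⟩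
  have h1 := hh i hi a ha
  change (QuotientGroup.mk (pr rels A x t g' (e a) * (h0 * 1)) : Y i) =
    QuotientGroup.mk (h0 * 1) at h1
  rw [QuotientGroup.eq, mul_one] at h1
  have h2 := inv_mem h1
  have h3 : ((pr rels A x t g' (e a) * h0)⁻¹ * h0)⁻¹ =
      h0⁻¹ * pr rels A x t g' (e a) * h0 := by group
  rw [h3] at h2
  exact h2

end Pool.Agent.H476R3.Iso.App
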