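import Mathlib
import Pool.Agent.H476R3.Iso.HC

set_option autoImplicit false

/-! Codes of the marked groups. -/

namespace Pool.Agent.H476R3.Iso.Code

open Pool.Agent.H476R3.Iso.HC

variable {X : Type} (rels A : Set (FreeGroup X)) (x t : X) (g : FreeGroup X)

/-- The marks not depending on the parameter. -/
def marksC (i : Fin 6) : Set (FreeGroup (Gen X)) :=
  ![∅, {L (FreeGroup.of x)}, {L (FreeGroup.of t)}, {L (FreeGroup.of x) * L (FreeGroup.of t)},
    {kk}, L '' A ∪ Rr '' A] i

/-- The commutation relator. -/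
def cr (i : Fin 6) (w : FreeGroup (Gen X)) : FreeGroup (Gen X) := cc i * w * (cc i)⁻¹ * w⁻¹

/-- The constant relators. -/
def relC : Set (FreeGroup (Gen X)) :=
  rel0 rels ∪ Set.range (fun i => cc i ^ p i) ∪
  Set.range (fun i => cc i * cc 0 * (cc i)⁻¹ * (cc 0)⁻¹) ∪
  ⋃ i, cr i '' marksC A x t i

theorem marks_iff (i : Fin 6) (w : FreeGroup (Gen X)) :
    w ∈ marks A x t g i ↔ w ∈ marksC A x t i ∨ (i = 5 ∧ w = L g * kk * (L g)⁻¹) := by
  fin_cases i <;> simp [marks, marksC]
  constructor
  · rintro (h | h | h)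
    · exact Or.inr h
    · exact Or.inl (Or.inl h)
    · exact Or.inl (Or.inr h)
  · rintro ((h | h) | h)
    · exact Or.inr (Or.inl h)
    · exact Or.inr (Or.inr h)
    · exact Or.inl h

theorem rel_eq : rel rels A x t g = relC rels A x t ∪ {cr 5 (L g * kk * (L g)⁻¹)} := by
  ext w
  constructor
  · rintro (hw | hw)
    · exact Or.inl (Or.inl hw)
    · rw [Set.mem_iUnion] at hw
      obtain ⟨i, w', hw, rfl⟩ := hw
      rcases (marks_iff A x t g i w').mp hw with h | ⟨rfl, rfl⟩
      · exact Or.inl (Or.inr (Set.mem_iUnion.mpr ⟨i, w', h, rfl⟩))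
      · exact Or.inr rfl
  · rintro ((hw | hw) | hw)
    · exact Or.inl hw
    · rw [Set.mem_iUnion] at hw
      obtain ⟨i, w', hw, rfl⟩ := hw
      exact Or.inr (Set.mem_iUnion.mpr ⟨i, w', (marks_iff A x t g i w').mpr (Or.inl hw), rfl⟩)
    · rw [Set.mem_singleton_iff.mp hw]
      exact Or.inr (Set.mem_iUnion.mpr ⟨5, _, (marks_iff A x t g 5 _).mpr (Or.inr ⟨rfl, rfl⟩), rfl⟩)

theorem relC_finite [Finite X] (hr : rels.Finite) (hA : A.Finite) : (relC rels A x t).Finite := by
  unfold relC rel0
  refine Set.Finite.union (Set.Finite.union (Set.Finite.union ((Set.Finite.union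
    (Set.finite_range _) (Set.finite_range _)).union (hr.image _)) (Set.finite_range _))
    (Set.finite_range _)) (Set.finite_iUnion fun i => ?_)
  apply Set.Finite.image
  fin_cases i
  · exact Set.finite_empty
  · exact Set.finite_singleton _
  · exact Set.finite_singleton _
  · exact Set.finite_singleton _
  · exact Set.finite_singleton _
  · exact (hA.image _).union (hA.image _)

/-- The generators as a sum. -/
def genEquiv : Gen X ≃ (X ⊕ X ⊕ Unit ⊕ Fin 6) where
  toFun y := match y with
    | .l x => .inl x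
    | .r x => .inr (.inl x)
    | .k => .inr (.inr (.inl ()))
    | .c i => .inr (.inr (.inr i))
  invFun y := match y with
    | .inl x => .l x
    | .inr (.inl x) => .r x
    | .inr (.inr (.inl _)) => .k
    | .inr (.inr (.inr i)) => .c i
  left_inv y := by cases y <;> rfl
  right_inv y := by rcases y with x | x | ⟨⟨⟩⟩ | i <;> rfl

/-- Powers of a letter as a list. -/
def rep {α : Type} (c : α) (N : ℕ) : List α := (List.range N).map (fun _ => c)

theorem mk_rep {α : Type} (c : α) (ε : Bool) (N : ℕ) :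
    FreeGroup.mk (rep (c, ε) N) = (FreeGroup.mk [(c, ε)]) ^ N := by
  induction N with
  | zero => rfl
  | succ N ih =>
    rw [rep, List.range_succ, List.map_append, ← FreeGroup.mul_mk, pow_succ]
    congr 1

/-- A conjugate of the last letter. -/
def bl {α : Type} (k t x : α) (ε : Bool) (N : ℕ) : List (α × Bool) :=
  rep (x, false) N ++ ([(t, true)] ++ (rep (x, true) N ++ ([(k, ε)] ++
    (rep (x, false) N ++ ([(t, false)] ++ rep (x, true) N)))))

/-- The variable relator. -/
def vl {α : Type} (c k t x : α) (N : ℕ) : List (α × Bool) :=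
  [(c, true)] ++ (bl k t x true N ++ ([(c, false)] ++ bl k t x false N))

theorem mk_vl {α : Type} (c k t x : α) (N : ℕ) : FreeGroup.mk (vl c k t x N) =
    FreeGroup.of c * (((FreeGroup.of x ^ N)⁻¹ * FreeGroup.of t * FreeGroup.of x ^ N) *
      FreeGroup.of k * ((FreeGroup.of x ^ N)⁻¹ * FreeGroup.of t * FreeGroup.of x ^ N)⁻¹) *
      (FreeGroup.of c)⁻¹ * (((FreeGroup.of x ^ N)⁻¹ * FreeGroup.of t * FreeGroup.of x ^ N) *
      FreeGroup.of k * ((FreeGroup.of x ^ N)⁻¹ * FreeGroup.of t * FreeGroup.of x ^ N)⁻¹)⁻¹ := by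
  have e1 : ∀ a : α, FreeGroup.mk [(a, true)] = FreeGroup.of a := fun a => rfl
  have e2 : ∀ a : α, FreeGroup.mk [(a, false)] = (FreeGroup.of a)⁻¹ := fun a => rfl
  simp only [vl, bl, ← FreeGroup.mul_mk, mk_rep, e1, e2, inv_pow]
  group

theorem vl_map {α β : Type} (h : α → β) (c k t x : α) (N : ℕ) :
    (vl c k t x N).map (fun q => (h q.1, q.2)) = vl (h c) (h k) (h t) (h x) N := by
  simp [vl, bl, rep, Function.comp_def]

theorem vl_primrec (c k t x : ℕ) : Primrec (fun n : ℕ => vl c k t x n) := by
  have hr : ∀ c : ℕ × Bool, Primrec (fun n : ℕ => rep c n) := fun c =>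
    Primrec.list_map Primrec.list_range (Primrec.const c).to₂
  have hb : ∀ ε : Bool, Primrec (fun n : ℕ => bl k t x ε n) := by
    intro ε
    unfold bl
    exact Primrec.list_append.comp (hr _) (Primrec.list_append.comp (Primrec.const _)
      (Primrec.list_append.comp (hr _) (Primrec.list_append.comp (Primrec.const _)
      (Primrec.list_append.comp (hr _) (Primrec.list_append.comp (Primrec.const _) (hr _))))))
  unfold vl
  exact Primrec.list_append.comp (Primrec.const _) (Primrec.list_append.comp (hb _)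
    (Primrec.list_append.comp (Primrec.const _) (hb _)))

theorem filter_val {k : ℕ} (w : List (Fin k × Bool)) :
    (w.map (fun q => (q.1.val, q.2))).filterMap
      (fun q => if h : q.1 < k then some ((⟨q.1, h⟩ : Fin k), q.2) else none) = w := by
  induction w with
  | nil => rfl
  | cons a w ih =>
    rw [List.map_cons, List.filterMap_cons]
    simp only [a.1.2, dif_pos]
    rw [ih]

/-- The reduction function. -/
theorem exists_code {X : Type} [Finite X] (rels A : Set (FreeGroup X)) (hr : rels.Finite)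
    (hA : A.Finite) (x t : X) (N : ℕ → ℕ) (hN : Computable N) :
    ∃ f : ℕ → ℕ × List (List (ℕ × Bool)), Computable f ∧ ∀ n, Nonempty
      (PresentedGroup {g : FreeGroup (Fin (f n).1) | ∃ w ∈ (f n).2, g = FreeGroup.mk
        (w.filterMap (fun q => if h : q.1 < (f n).1 then some ((⟨q.1, h⟩ : Fin (f n).1), q.2)
          else none))} ≃*
      MG rels A x t ((FreeGroup.of x ^ N n)⁻¹ * FreeGroup.of t * FreeGroup.of x ^ N n)) := by
  classical
  have : Finite (Gen X) := Finite.of_equiv _ (genEquiv (X := X)).symm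
  obtain ⟨k, ⟨e⟩⟩ := Finite.exists_equiv_fin (Gen X)
  have hC := relC_finite rels A x t hr hA
  let cw : FreeGroup (Gen X) → List (ℕ × Bool) := fun h =>
    (FreeGroup.toWord (FreeGroup.freeGroupCongr e h)).map (fun q => (q.1.val, q.2))
  let V : ℕ → List (ℕ × Bool) := fun N =>
    vl (e (.c 5)).val (e .k).val (e (.l t)).val (e (.l x)).val N
  let f : ℕ → ℕ × List (List (ℕ × Bool)) := fun n => (k, V (N n) :: hC.toFinset.toList.map cw)
  have hf : Computable f := by
    have h1 : Primrec (fun m : ℕ => ((k, V m :: hC.toFinset.toList.map cw) :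
        ℕ × List (List (ℕ × Bool)))) :=
      Primrec.pair (Primrec.const _) (Primrec.list_cons.comp (vl_primrec _ _ _ _)
        (Primrec.const _))
    exact h1.to_comp.comp hN
  refine ⟨f, hf, fun n => ?_⟩
  let g := (FreeGroup.of x ^ N n)⁻¹ * FreeGroup.of t * FreeGroup.of x ^ N n
  have hset : {g : FreeGroup (Fin k) | ∃ w ∈ V (N n) :: hC.toFinset.toList.map cw,
      g = FreeGroup.mk (w.filterMap (fun q => if h : q.1 < k then some ((⟨q.1, h⟩ : Fin k), q.2)
          else none))} = FreeGroup.freeGroupCongr e '' rel rels A x t g := by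
    have hcw : ∀ h, FreeGroup.mk ((cw h).filterMap
        (fun q => if h : q.1 < k then some ((⟨q.1, h⟩ : Fin k), q.2) else none)) =
        FreeGroup.freeGroupCongr e h := by
      intro h
      rw [filter_val, FreeGroup.mk_toWord]
    have hV : FreeGroup.mk ((V (N n)).filterMap
        (fun q => if h : q.1 < k then some ((⟨q.1, h⟩ : Fin k), q.2) else none)) =
        FreeGroup.freeGroupCongr e (cr 5 (L g * kk * (L g)⁻¹)) := by
      have h1 : V (N n) = (vl (e (.c 5)) (e .k) (e (.l t)) (e (.l x)) (N n)).map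
          (fun q => (q.1.val, q.2)) := (vl_map Fin.val _ _ _ _ _).symm
      rw [h1, filter_val, mk_vl]
      simp only [cr, cc, kk, g, L, map_mul, map_inv, map_pow, FreeGroup.map.of,
        FreeGroup.freeGroupCongr_apply]
    rw [rel_eq]
    ext y
    constructor
    · rintro ⟨w, hw, rfl⟩
      rcases List.mem_cons.mp hw with rfl | hw
      · exact ⟨_, Or.inr rfl, hV.symm⟩
      · rw [List.mem_map] at hw
        obtain ⟨h, hh, rfl⟩ := hw
        refine ⟨h, Or.inl ?_, (hcw h).symm⟩
        simpa using hh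
    · rintro ⟨h, hh | hh, rfl⟩
      · refine ⟨cw h, List.mem_cons_of_mem _ (List.mem_map.mpr ⟨h, ?_, rfl⟩), (hcw h).symm⟩
        simpa using hh
      · rw [Set.mem_singleton_iff.mp hh]
        exact ⟨_, List.mem_cons_self, hV.symm⟩
  have he := PresentedGroup.equivPresentedGroup (rel rels A x t g) e
  refine ⟨?_⟩
  change PresentedGroup {g : FreeGroup (Fin k) | ∃ w ∈ V (N n) :: hC.toFinset.toList.map cw,
      g = FreeGroup.mk (w.filterMap (fun q => if h : q.1 < k then some ((⟨q.1, h⟩ : Fin k), q.2)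
          else none))} ≃* PresentedGroup (rel rels A x t g)
  rw [hset]
  exact he.symm

end Pool.Agent.H476R3.Iso.Code
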