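import Mathlib
import Pool.Agent.H476R3.Iso.App

set_option autoImplicit false

/-! Marked groups are isomorphic exactly when the double cosets agree. -/

namespace Pool.Agent.H476R3.Iso.Dbl

open Pool.Agent.H476R3.Iso.HC Pool.Agent.H476R3.Iso.App

section Free

theorem addz (k : ℤ) (q : ℚ) : ((Equiv.addRight (1 : ℚ)) ^ k) q = q + k := by
  induction k using Int.induction_on generalizing q with
  | zero => simp
  | succ n ih =>
    rw [zpow_add_one, Equiv.Perm.mul_apply, ih]
    simp only [Equiv.coe_addRight]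
    push_cast; ring
  | pred n ih =>
    rw [zpow_sub_one, Equiv.Perm.mul_apply, ih]
    have : (Equiv.addRight (1 : ℚ))⁻¹ q = q - 1 := by
      rw [Equiv.Perm.inv_eq_iff_eq]; simp
    rw [this]
    push_cast; ring

theorem ml2 (q : ℚ) : (Equiv.mulLeft₀ (2 : ℚ) two_ne_zero) q = 2 * q := rfl

theorem mulz (k : ℤ) (q : ℚ) : ((Equiv.mulLeft₀ (2 : ℚ) two_ne_zero) ^ k) q = 2 ^ k * q := by
  induction k using Int.induction_on generalizing q with
  | zero => simp
  | succ n ih =>
    rw [zpow_add_one, Equiv.Perm.mul_apply, ih]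
    rw [ml2, zpow_add_one₀ two_ne_zero]; ring
  | pred n ih =>
    rw [zpow_sub_one, Equiv.Perm.mul_apply, ih]
    have : (Equiv.mulLeft₀ (2 : ℚ) two_ne_zero)⁻¹ q = q / 2 := by
      rw [Equiv.Perm.inv_eq_iff_eq, ml2]; ring
    rw [this, zpow_sub_one₀ two_ne_zero]; ring

theorem two_pow_int (r : ℤ) (h : (2 : ℚ) ^ r = r + 1) : r = 0 ∨ r = 1 := by
  have h1 : (0 : ℚ) < 2 ^ r := by positivity
  have h2 : (0 : ℤ) ≤ r := by
    rw [h] at h1
    have : (0 : ℤ) < r + 1 := by exact_mod_cast h1
    omega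
  obtain ⟨n, rfl⟩ := Int.eq_ofNat_of_zero_le h2
  have h3 : (2 : ℕ) ^ n = n + 1 := by
    have : (2 : ℚ) ^ n = n + 1 := by exact_mod_cast h
    exact_mod_cast this
  rcases n with _ | _ | n
  · left; rfl
  · right; rfl
  · exfalso
    have h4 : ∀ m : ℕ, m + 3 < 2 ^ (m + 2) := by
      intro m
      induction m with
      | zero => norm_num
      | succ m ih => rw [show m + 1 + 2 = (m + 2) + 1 by omega, pow_succ]; omega
    have h5 := h4 n
    have h6 : (2 : ℕ) ^ (n + 2) = n + 2 + 1 := by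
      have := h3
      rw [show n + 1 + 1 = n + 2 by omega] at this
      exact this
    omega

theorem free_exp {X : Type} (x t : X) (hxt : x ≠ t) (k l r : ℤ)
    (h : FreeGroup.of x ^ k * FreeGroup.of t ^ l = (FreeGroup.of x * FreeGroup.of t) ^ r) :
    (k = 0 ∧ l = 0) ∨ (k = 1 ∧ l = 1) := by
  classical
  have hk : k = r := by
    have := congrArg (FreeGroup.lift (fun y => if y = x then Multiplicative.ofAdd (1 : ℤ) else 1)) h
    have h2 := congrArg Multiplicative.toAdd this
    simpa [hxt.symm] using h2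
  have hl : l = r := by
    have := congrArg (FreeGroup.lift (fun y => if y = t then Multiplicative.ofAdd (1 : ℤ) else 1)) h
    have h2 := congrArg Multiplicative.toAdd this
    simpa [hxt] using h2
  subst hk
  subst hl
  let XX := Equiv.addRight (1 : ℚ)
  let TT := Equiv.mulLeft₀ (2 : ℚ) two_ne_zero
  have h1 := congrArg (FreeGroup.lift (fun y => if y = x then XX else if y = t then TT else 1)) h
  simp only [map_mul, map_zpow, FreeGroup.lift_apply_of, if_true, if_neg hxt.symm] at h1
  have h2 : XX * TT = XX⁻¹ * TT * XX := by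
    rw [mul_assoc, eq_inv_mul_iff_mul_eq]
    ext q
    simp only [XX, TT, Equiv.Perm.mul_apply, Equiv.coe_addRight, ml2]
    ring
  have h3 : (XX * TT) ^ l = XX⁻¹ * TT ^ l * XX := by
    rw [h2]
    have := conj_zpow (i := l) (a := XX⁻¹) (b := TT)
    rw [inv_inv] at this
    exact this
  rw [h3] at h1
  have h4 := congrArg (fun σ => σ (0 : ℚ)) h1
  simp only [Equiv.Perm.mul_apply] at h4
  have h5 : XX⁻¹ ((TT ^ l) (XX 0)) = (TT ^ l) (XX 0) - 1 := by
    rw [Equiv.Perm.inv_eq_iff_eq]; simp [XX]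
  rw [h5, mulz, mulz, addz] at h4
  simp only [XX, Equiv.coe_addRight, mul_zero, zero_add, mul_one] at h4
  have h6 : (2 : ℚ) ^ l = l + 1 := by linarith
  rcases two_pow_int l h6 with h7 | h7
  · left; exact ⟨h7, h7⟩
  · right; exact ⟨h7, h7⟩

end Free

variable {X : Type} (rels A : Set (FreeGroup X)) (x t : X) (g : FreeGroup X)

/-- Exponent counting. -/
noncomputable def cnt (γ : PresentedGroup rels) : FreeGroup (PresentedGroup rels) →*
    Multiplicative ℤ := by
  classical
  exact FreeGroup.lift (fun γ' => if γ' = γ then Multiplicative.ofAdd 1 else 1)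

theorem cnt_of (γ γ' : PresentedGroup rels) [Decidable (γ' = γ)] :
    cnt rels γ (FreeGroup.of γ') = if γ' = γ then Multiplicative.ofAdd 1 else 1 := by
  rw [cnt, FreeGroup.lift_apply_of]
  congr

theorem cnt_φ (a : FreeGroup X × FreeGroup X) (γ : PresentedGroup rels)
    (w : FreeGroup (PresentedGroup rels)) :
    cnt rels γ (φ rels a w) = cnt rels ((tr rels a)⁻¹ γ) w := by
  classical
  suffices h : (cnt rels γ).comp (φ rels a).toMonoidHom = cnt rels ((tr rels a)⁻¹ γ) from
    DFunLike.congr_fun h w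
  apply FreeGroup.ext_hom
  intro γ'
  rw [MonoidHom.comp_apply, MulEquiv.coe_toMonoidHom, φ_of, cnt_of, cnt_of]
  have : (PresentedGroup.mk rels a.1 * γ' * (PresentedGroup.mk rels a.2)⁻¹ = γ) ↔
      γ' = (tr rels a)⁻¹ γ := by
    rw [← tr_apply, Equiv.Perm.eq_inv_iff_eq]
  by_cases h : γ' = (tr rels a)⁻¹ γ
  · rw [if_pos h, if_pos (this.mpr h)]
  · rw [if_neg h, if_neg (fun h' => h (this.mp h'))]

/-- The double coset. -/
def DC (γ : PresentedGroup rels) : Prop := ∃ u ∈ Subgroup.closure A, ∃ v ∈ Subgroup.closure A,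
  γ = PresentedGroup.mk rels (u * g * v)

theorem DC_tr (a : FreeGroup X × FreeGroup X) (h1 : a.1 ∈ Subgroup.closure A)
    (h2 : a.2 ∈ Subgroup.closure A) (γ : PresentedGroup rels) (h : DC rels A g ((tr rels a)⁻¹ γ)) :
    DC rels A g γ := by
  obtain ⟨u, hu, v, hv, h⟩ := h
  refine ⟨a.1 * u, mul_mem h1 hu, v * a.2⁻¹, mul_mem hv (inv_mem h2), ?_⟩
  rw [Equiv.Perm.inv_eq_iff_eq, tr_apply] at h
  rw [h]
  simp [mul_assoc]

/-- The subgroup attached to the double coset. -/
def EE : Subgroup (HC rels) where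
  carrier := {a | a.right.1 ∈ Subgroup.closure A ∧ a.right.2 ∈ Subgroup.closure A ∧
    ∀ γ, ¬ DC rels A g γ → cnt rels γ a.left = 1}
  one_mem' := ⟨one_mem _, one_mem _, fun γ _ => map_one _⟩
  mul_mem' := by
    rintro a b ⟨a1, a2, a3⟩ ⟨b1, b2, b3⟩
    refine ⟨mul_mem a1 b1, mul_mem a2 b2, fun γ hγ => ?_⟩
    rw [SemidirectProduct.mul_left, map_mul, a3 γ hγ, one_mul, cnt_φ]
    exact b3 _ fun h => hγ (DC_tr rels A g _ a1 a2 γ h)
  inv_mem' := by
    rintro a ⟨a1, a2, a3⟩
    refine ⟨inv_mem a1, inv_mem a2, fun γ hγ => ?_⟩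
    rw [SemidirectProduct.inv_left, cnt_φ, map_inv]
    rw [a3 _ fun h => hγ (DC_tr rels A g _ (inv_mem a1) (inv_mem a2) γ h), inv_one]

theorem SS_le : SS rels A x t g 5 ≤ EE rels A g := by
  rw [SS, Subgroup.closure_le]
  rintro _ ⟨w, hw, rfl⟩
  change w ∈ L '' A ∪ Rr '' A ∪ {L g * kk * (L g)⁻¹} at hw
  rcases hw with (⟨a, ha, rfl⟩ | ⟨a, ha, rfl⟩) | hw
  · rw [fm_L]
    exact ⟨Subgroup.subset_closure ha, one_mem _, fun γ _ => map_one _⟩
  · rw [fm_R]
    exact ⟨one_mem _, Subgroup.subset_closure ha, fun γ _ => map_one _⟩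
  · rw [Set.mem_singleton_iff.mp hw, map_mul, map_mul, map_inv, fm_L, fm_k, lw_kw, mul_one]
    refine ⟨one_mem _, one_mem _, fun γ hγ => ?_⟩
    classical
    change cnt rels γ (FreeGroup.of _) = 1
    rw [cnt_of, if_neg]
    rintro rfl
    exact hγ ⟨1, one_mem _, 1, one_mem _, by simp⟩

theorem kw_pow_mem (γ : PresentedGroup rels) (q : ℤ) (hq : q ≠ 0)
    (h : kw rels γ ^ q ∈ SS rels A x t g 5) : DC rels A g γ := by
  classical
  by_contra hγ
  have h1 := (SS_le rels A x t g h).2.2 γ hγ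
  rw [kw, ← map_zpow] at h1
  change cnt rels γ (FreeGroup.of γ ^ q) = 1 at h1
  rw [map_zpow, cnt_of, if_pos rfl, ← ofAdd_zsmul] at h1
  have h2 := congrArg Multiplicative.toAdd h1
  simp at h2
  exact hq h2

variable {g} {g' : FreeGroup X}

/-- An isomorphism forces equality of double cosets. -/
theorem of_iso (hxt : x ≠ t) (hg : g ∈ Subgroup.closure {FreeGroup.of x, FreeGroup.of t})
    (e : MG rels A x t g ≃* MG rels A x t g') :
    ∃ u ∈ Subgroup.closure A, ∃ v ∈ Subgroup.closure A,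
      PresentedGroup.mk rels (u * g' * v) = PresentedGroup.mk rels g := by
  classical
  obtain ⟨h0, hh⟩ := rigid_mg rels A x t e
  let ψ : MG rels A x t g →* HC rels :=
    ((MulAut.conj h0⁻¹).toMonoidHom.comp (pr rels A x t g')).comp e.toMonoidHom
  have hψ : ∀ a, ψ a = h0⁻¹ * pr rels A x t g' (e a) * h0 := by
    intro a
    change h0⁻¹ * pr rels A x t g' (e a) * (h0⁻¹)⁻¹ = _
    rw [inv_inv]
  have hmem : ∀ i, i ≠ 0 → ∀ w ∈ marks A x t g i,
      ψ (PresentedGroup.mk _ w) ∈ SS rels A x t g' i := by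
    intro i hi w hw
    rw [hψ]
    exact hh i hi _ (ce_mark rels A x t g i w hw)
  -- nontriviality
  have hnz : ∀ a, ψ a = 1 → pr rels A x t g a = 1 := by
    intro a ha
    rw [hψ] at ha
    have h1 : pr rels A x t g' (e a) = 1 := by
      have : h0 * (h0⁻¹ * pr rels A x t g' (e a) * h0) * h0⁻¹ = h0 * 1 * h0⁻¹ := by rw [ha]
      simpa [mul_assoc] using this
    have h2 := ker_pr rels A x t g' _ h1
    have h3 : Subgroup.normalClosure (Set.range (ce rels A x t g')) ≤
        ((pr rels A x t g).comp e.symm.toMonoidHom).ker := by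
      apply Subgroup.normalClosure_le_normal
      rintro _ ⟨i, rfl⟩
      change pr rels A x t g (e.symm (ce rels A x t g' i)) = 1
      apply hc_tf rels _ _ (hp i).pos
      rw [← map_pow, ← map_pow, ce_pow, map_one, map_one]
    have h4 := h3 h2
    have h5 : pr rels A x t g (e.symm (e a)) = 1 := h4
    rw [e.symm_apply_apply] at h5
    exact h5
  -- the letters x and t
  have hx : ∃ k : ℤ, ψ (PresentedGroup.mk _ (L (FreeGroup.of x))) = lw rels (FreeGroup.of x) ^ k := by
    have := hmem 1 (by decide) (L (FreeGroup.of x)) (by simp [marks])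
    have hS : SS rels A x t g' 1 = Subgroup.zpowers (lw rels (FreeGroup.of x)) := by
      rw [SS, Subgroup.zpowers_eq_closure]
      congr 1
      simp [marks, fm_L]
    rw [hS, Subgroup.mem_zpowers_iff] at this
    obtain ⟨k, hk⟩ := this
    exact ⟨k, hk.symm⟩
  have ht : ∃ k : ℤ, ψ (PresentedGroup.mk _ (L (FreeGroup.of t))) = lw rels (FreeGroup.of t) ^ k := by
    have := hmem 2 (by decide) (L (FreeGroup.of t)) (by simp [marks])
    have hS : SS rels A x t g' 2 = Subgroup.zpowers (lw rels (FreeGroup.of t)) := by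
      rw [SS, Subgroup.zpowers_eq_closure]
      congr 1
      simp [marks, fm_L]
    rw [hS, Subgroup.mem_zpowers_iff] at this
    obtain ⟨k, hk⟩ := this
    exact ⟨k, hk.symm⟩
  have hxt' : ∃ k : ℤ, ψ (PresentedGroup.mk _ (L (FreeGroup.of x) * L (FreeGroup.of t))) =
      (lw rels (FreeGroup.of x) * lw rels (FreeGroup.of t)) ^ k := by
    have := hmem 3 (by decide) (L (FreeGroup.of x) * L (FreeGroup.of t)) (by simp [marks])
    have hS : SS rels A x t g' 3 =
        Subgroup.zpowers (lw rels (FreeGroup.of x) * lw rels (FreeGroup.of t)) := by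
      rw [SS, Subgroup.zpowers_eq_closure]
      congr 1
      simp [marks, fm_L]
    rw [hS, Subgroup.mem_zpowers_iff] at this
    obtain ⟨k, hk⟩ := this
    exact ⟨k, hk.symm⟩
  have hkk : ∃ k : ℤ, ψ (PresentedGroup.mk _ kk) = kw rels 1 ^ k := by
    have := hmem 4 (by decide) kk (by simp [marks])
    have hS : SS rels A x t g' 4 = Subgroup.zpowers (kw rels 1) := by
      rw [SS, Subgroup.zpowers_eq_closure]
      congr 1
      simp [marks, fm_k]
    rw [hS, Subgroup.mem_zpowers_iff] at this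
    obtain ⟨k, hk⟩ := this
    exact ⟨k, hk.symm⟩
  obtain ⟨k, hk⟩ := hx
  obtain ⟨l, hl⟩ := ht
  obtain ⟨r, hr⟩ := hxt'
  obtain ⟨q, hq⟩ := hkk
  have hlw : Function.Injective (lw rels) := by
    intro a b hab
    have := SemidirectProduct.inr_injective (φ := φ rels) hab
    exact (Prod.mk.inj this).1
  have hexp : FreeGroup.of x ^ k * FreeGroup.of t ^ l = (FreeGroup.of x * FreeGroup.of t) ^ r := by
    apply hlw
    rw [map_mul, map_zpow, map_zpow, map_zpow, map_mul, ← hk, ← hl, ← hr, map_mul, map_mul]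
  have hkl := free_exp x t hxt k l r hexp
  have hk1 : k = 1 ∧ l = 1 := by
    rcases hkl with h | h
    · exfalso
      rw [h.1, zpow_zero] at hk
      have := hnz _ hk
      rw [pr_mk, fm_L] at this
      have h2 := hlw (this.trans (map_one _).symm)
      exact FreeGroup.of_ne_one x h2
    · exact h
  have hq0 : q ≠ 0 := by
    rintro rfl
    rw [zpow_zero] at hq
    have := hnz _ hq
    rw [pr_mk, fm_k] at this
    have h2 := SemidirectProduct.inl_injective (this.trans (map_one _).symm)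
    exact FreeGroup.of_ne_one _ h2
  have hL : ∀ u ∈ Subgroup.closure {FreeGroup.of x, FreeGroup.of t},
      ψ (PresentedGroup.mk _ (L u)) = lw rels u := by
    have hle : Subgroup.closure {FreeGroup.of x, FreeGroup.of t} ≤
        MonoidHom.eqLocus ((ψ.comp (PresentedGroup.mk _)).comp L) (lw rels) := by
      rw [Subgroup.closure_le]
      rintro u (rfl | hu)
      · change ψ _ = _
        rw [hk, hk1.1, zpow_one]
      · rw [Set.mem_singleton_iff.mp hu]
        change ψ _ = _
        rw [hl, hk1.2, zpow_one]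
    exact fun u hu => hle hu
  have h5 := hmem 5 (by decide) (L g * kk * (L g)⁻¹) (by
    change _ ∈ L '' A ∪ Rr '' A ∪ {L g * kk * (L g)⁻¹}
    exact Or.inr rfl)
  have h6 : ψ (PresentedGroup.mk _ (L g * kk * (L g)⁻¹)) = kw rels (PresentedGroup.mk rels g) ^ q := by
    rw [map_mul, map_mul, map_mul, map_mul, map_inv, map_inv, hL g hg, hq, ← conj_zpow, lw_kw,
      mul_one]
  rw [h6] at h5
  obtain ⟨u, hu, v, hv, h⟩ := kw_pow_mem rels A x t g' _ q hq0 h5
  exact ⟨u, hu, v, hv, h.symm⟩

theorem marks5 (g : FreeGroup X) : marks A x t g 5 = L '' A ∪ Rr '' A ∪ {L g * kk * (L g)⁻¹} := by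
  simp only [marks]
  rfl

theorem marks_ne (g g' : FreeGroup X) (i : Fin 6) (hi : i ≠ 5) :
    marks A x t g i = marks A x t g' i := by
  fin_cases i
  · simp [marks]
  · simp [marks]
  · simp [marks]
  · simp [marks]
  · simp [marks]
  · exact absurd rfl hi

theorem k5 {𝒢 : Type} [Group 𝒢] (f : FreeGroup (Gen X) →* 𝒢) (hf0 : ∀ w ∈ rel0 rels, f w = 1)
    (c : 𝒢) (hL : ∀ a ∈ A, Commute (f (L a)) c) (hR : ∀ a ∈ A, Commute (f (Rr a)) c)
    (hg' : Commute (f (L g') * f kk * (f (L g'))⁻¹) c)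
    (h : ∃ u ∈ Subgroup.closure A, ∃ v ∈ Subgroup.closure A,
      PresentedGroup.mk rels (u * g' * v) = PresentedGroup.mk rels g) :
    Commute (f (L g) * f kk * (f (L g))⁻¹) c := by
  obtain ⟨u, hu, v, hv, h⟩ := h
  have hcL : ∀ a ∈ Subgroup.closure A, Commute (f (L a)) c := by
    intro a ha
    induction ha using Subgroup.closure_induction with
    | mem a ha => exact hL a ha
    | one => simp
    | mul a b _ _ iha ihb => rw [map_mul, map_mul]; exact iha.mul_left ihb
    | inv a _ iha => rw [map_inv, map_inv]; exact iha.inv_left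
  have hcR : ∀ a ∈ Subgroup.closure A, Commute (f (Rr a)) c := by
    intro a ha
    induction ha using Subgroup.closure_induction with
    | mem a ha => exact hR a ha
    | one => simp
    | mul a b _ _ iha ihb => rw [map_mul, map_mul]; exact iha.mul_left ihb
    | inv a _ iha => rw [map_inv, map_inv]; exact iha.inv_left
  have h1 := kconj_eq rels f hf0 (u * g' * v) g h
  have h2 := rconj rels f hf0 v⁻¹ g'
  rw [inv_inv] at h2
  have h3 : f (L g) * f kk * (f (L g))⁻¹ =
      f (L u) * (f (Rr v⁻¹) * (f (L g') * f kk * (f (L g'))⁻¹) *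
        (f (Rr v⁻¹))⁻¹) * (f (L u))⁻¹ := by
    rw [h2, ← h1, mul_assoc u g' v, map_mul L u, map_mul f (L u)]
    group
  rw [h3]
  have c1 := hcL u hu
  have c2 := hcR _ (inv_mem hv)
  exact (c1.mul_left ((c2.mul_left hg').mul_left c2.inv_left)).mul_left c1.inv_left

theorem le_of {α : Type} (r r' : Set (FreeGroup α))
    (h : ∀ w ∈ r, PresentedGroup.mk r' w = 1) :
    Subgroup.normalClosure r ≤ Subgroup.normalClosure r' := by
  apply Subgroup.normalClosure_le_normal
  intro w hw
  exact (QuotientGroup.eq_one_iff _).mp (h w hw)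

theorem comm_rel {𝒢 : Type} [Group 𝒢] (f : FreeGroup (Gen X) →* 𝒢) (a b : FreeGroup (Gen X))
    (h : Commute (f b) (f a)) : f (a * b * a⁻¹ * b⁻¹) = 1 := by
  simp only [map_mul, map_inv]
  rw [mul_inv_eq_one, mul_inv_eq_iff_eq_mul]
  exact h.symm

/-- Equality of double cosets gives inclusion of normal closures. -/
theorem closure_le (h : ∃ u ∈ Subgroup.closure A, ∃ v ∈ Subgroup.closure A,
      PresentedGroup.mk rels (u * g' * v) = PresentedGroup.mk rels g) :
    Subgroup.normalClosure (rel rels A x t g) ≤ Subgroup.normalClosure (rel rels A x t g') := by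
  apply le_of
  have hf0 : ∀ w ∈ rel0 rels, PresentedGroup.mk (rel rels A x t g') w = 1 := fun w hw =>
    mk_rel rels A x t g' (Or.inl (Or.inl (Or.inl hw)))
  have hcomm := ce_mark rels A x t g'
  have hm5 := marks5 A x t g'
  have hk5 : Commute (PresentedGroup.mk (rel rels A x t g') (L g * kk * (L g)⁻¹))
      (ce rels A x t g' 5) := by
    have hg' := hcomm 5 (L g' * kk * (L g')⁻¹) (by rw [hm5]; exact Or.inr rfl)
    rw [map_mul, map_mul, map_inv] at hg' ⊢
    exact k5 rels A (PresentedGroup.mk (rel rels A x t g')) hf0 (ce rels A x t g' 5)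
      (fun a ha => hcomm 5 _ (by rw [hm5]; exact Or.inl (Or.inl ⟨a, ha, rfl⟩)))
      (fun a ha => hcomm 5 _ (by rw [hm5]; exact Or.inl (Or.inr ⟨a, ha, rfl⟩))) hg' h
  intro w hw
  rcases hw with ((hw | hw) | hw) | hw
  · exact hf0 w hw
  · exact mk_rel rels A x t g' (Or.inl (Or.inl (Or.inr hw)))
  · exact mk_rel rels A x t g' (Or.inl (Or.inr hw))
  · rw [Set.mem_iUnion] at hw
    obtain ⟨i, w, hw, rfl⟩ := hw
    apply comm_rel
    change Commute (PresentedGroup.mk (rel rels A x t g') w) (ce rels A x t g' i)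
    by_cases hi : i = 5
    · subst hi
      rw [marks5] at hw
      rcases hw with hw | hw
      · exact hcomm 5 _ (by rw [hm5]; exact Or.inl hw)
      · rw [Set.mem_singleton_iff.mp hw]; exact hk5
    · rw [marks_ne A x t g g' i hi] at hw
      exact hcomm i w hw

theorem dc_symm (h : ∃ u ∈ Subgroup.closure A, ∃ v ∈ Subgroup.closure A,
      PresentedGroup.mk rels (u * g' * v) = PresentedGroup.mk rels g) :
    ∃ u ∈ Subgroup.closure A, ∃ v ∈ Subgroup.closure A,
      PresentedGroup.mk rels (u * g * v) = PresentedGroup.mk rels g' := by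
  obtain ⟨u, hu, v, hv, h⟩ := h
  refine ⟨u⁻¹, inv_mem hu, v⁻¹, inv_mem hv, ?_⟩
  rw [map_mul, map_mul, ← h]
  simp [mul_assoc]

/-- Marked groups are isomorphic exactly when the double cosets agree. -/
theorem iso_iff (hxt : x ≠ t) (hg : g ∈ Subgroup.closure {FreeGroup.of x, FreeGroup.of t}) :
    Nonempty (MG rels A x t g ≃* MG rels A x t g') ↔
      ∃ u ∈ Subgroup.closure A, ∃ v ∈ Subgroup.closure A,
        PresentedGroup.mk rels (u * g' * v) = PresentedGroup.mk rels g := by
  constructor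
  · rintro ⟨e⟩
    exact of_iso rels A x t hxt hg e
  · intro h
    have h1 := closure_le rels A x t h
    have h2 := closure_le rels A x t (dc_symm rels A h)
    exact ⟨QuotientGroup.quotientMulEquivOfEq (le_antisymm h1 h2)⟩

end Pool.Agent.H476R3.Iso.Dbl
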